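import Pool.Agent.E8helper75.OB.Kar
import Pool.Agent.TH988.RB.Lan

/-! Functions with a one-sided bound: means and the abscissa of convergence. -/

set_option autoImplicit false

namespace Pool.Agent.E8helper75.OB

open MeasureTheory Filter Topology Set
open Pool.Agent.W263.BSD

variable {A : ℝ → ℝ}

theorem int_Ioc {f : ℝ → ℝ} (hf : Measurable f) (hi : ∀ w > 0, LInt f w) (U : ℝ) :
    IntegrableOn f (Ioc 0 U) := b_integrable hf hi U

theorem sub_lg_LInt (hi : ∀ w > 0, LInt A w) (ρ : ℝ) :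
    ∀ w > 0, LInt (fun t => A t - ρ * lg t) w :=
  fun w hw => (hi w hw).sub ((lg_LInt hw).const_mul ρ)

theorem neg_log_inf : Tendsto (fun w : ℝ => -Real.log w) (𝓝[>] 0) atTop :=
  tendsto_neg_atBot_atTop.comp Real.tendsto_log_nhdsGT_zero

theorem small : ∀ᶠ w : ℝ in 𝓝[>] 0, 0 < w ∧ 0 < -Real.log w := by
  filter_upwards [Ioo_mem_nhdsGT (show (0 : ℝ) < 1 by norm_num)] with w hw
  have := Real.log_neg hw.1 hw.2
  exact ⟨hw.1, by linarith⟩

/-- **Means of functions with a one-sided bound.** -/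
theorem core (hA : Measurable A) (hi : ∀ w > 0, LInt A w) {m ρ b : ℝ}
    (hlim : Tendsto (fun w : ℝ => w * lap A w + m * Real.log w) (𝓝[>] 0) (𝓝 (-b)))
    {ε : ℝ} (hε : ε = 1 ∨ ε = -1) {C : ℝ} (hC : ∀ t, 0 < t → ε * (A t - ρ * lg t) ≤ C) :
    0 ≤ ε * (ρ - m) ∧
    Tendsto (fun U : ℝ => (∫ u in Ioc 0 U, A u) / (U * Real.log U)) atTop (𝓝 m) ∧
    (m = ρ → Tendsto (fun U : ℝ => (∫ u in Ioc 0 U, (A u - ρ * lg u)) / U) atTop
      (𝓝 (ρ * Real.eulerMascheroniConstant - b))) ∧
    (∀ T : ℕ → ℝ, Tendsto T atTop atTop → ∀ c : ℝ,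
      Tendsto (fun k => (∫ u in Ioc 0 (T k), (A u - ρ * lg u)) / T k) atTop (𝓝 c) →
      m = ρ ∧ c = ρ * Real.eulerMascheroniConstant - b) := by
  have hεε : ε * ε = 1 := by rcases hε with h | h <;> rw [h] <;> norm_num
  set γ := Real.eulerMascheroniConstant with hγ
  set R : ℝ → ℝ := fun t => A t - ρ * lg t with hR
  have hRm : Measurable R := hA.sub (lg_meas.const_mul ρ)
  have hRi : ∀ w > 0, LInt R w := sub_lg_LInt hi ρ
  set f : ℝ → ℝ := fun t => C * ex 0 t - ε * R t with hf
  have hfm : Measurable f := ((ex_meas 0).const_mul C).sub (hRm.const_mul ε)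
  have hfi : ∀ w > 0, LInt f w := fun w hw =>
    ((ex_LInt (c := 0) hw).const_mul C).sub ((hRi w hw).const_mul ε)
  have hf0 : ∀ t, 0 < t → 0 ≤ f t := fun t ht => by
    have h1 := hC t ht
    have h2 : ex 0 t = 1 := by unfold ex; simp
    simp only [hf, h2, mul_one]
    linarith
  -- the transform of `R`
  have hRl : Tendsto (fun w : ℝ => w * lap R w - (ρ - m) * Real.log w) (𝓝[>] 0) (𝓝 (ρ * γ - b)) := by
    have h1 := hlim.sub (lg_lim.const_mul ρ)
    have h2 : -b - ρ * -γ = ρ * γ - b := by ring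
    rw [h2] at h1
    refine h1.congr' ?_
    filter_upwards [self_mem_nhdsWithin] with w hw
    have hw0 : (0 : ℝ) < w := hw
    have h3 : lap R w = lap A w - ρ * lap lg w := by
      rw [← lap_const_mul, ← lap_sub (hi w hw0) ((lg_LInt hw0).const_mul ρ)]
    rw [h3]; ring
  have hfl : ∀ w : ℝ, 0 < w → w * lap f w = C - ε * (w * lap R w) := by
    intro w hw
    have h3 : lap f w = C * lap (ex 0) w - ε * lap R w := by
      rw [← lap_const_mul, ← lap_const_mul, ← lap_sub ((ex_LInt (c := 0) hw).const_mul C)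
        ((hRi w hw).const_mul ε)]
    have h4 : lap (ex 0) w = 1 / (w - 0) := ex_lap hw
    rw [h3, h4, sub_zero]
    field_simp
  have hlog : Tendsto (fun w : ℝ => w ^ (0 + 1) * lap f w / (-Real.log w)) (𝓝[>] 0)
      (𝓝 (ε * (ρ - m))) := by
    have h1 : Tendsto (fun w : ℝ => (C - ε * (w * lap R w - (ρ - m) * Real.log w)) / (-Real.log w))
        (𝓝[>] 0) (𝓝 0) := (tendsto_const_nhds.sub (hRl.const_mul ε)).div_atTop neg_log_inf
    have h2 := h1.add_const (ε * (ρ - m))
    rw [zero_add] at h2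
    refine h2.congr' ?_
    filter_upwards [small] with w hw
    have h3 : Real.log w ≠ 0 := by have := hw.2; intro h; rw [h] at this; simp at this
    rw [zero_add, pow_one, hfl w hw.1]
    field_simp
    ring
  have hnn : 0 ≤ ε * (ρ - m) := by
    refine ge_of_tendsto hlog ?_
    filter_upwards [small] with w hw
    exact div_nonneg (mul_nonneg (pow_pos hw.1 _).le (lap_nonneg hf0 w)) hw.2.le
  -- integrals
  have hint : ∀ U : ℝ, 0 < U → ∫ u in Ioc 0 U, R u = ε * (C * U - ∫ u in Ioc 0 U, f u) := by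
    intro U hU
    have h1 : ∫ u in Ioc 0 U, f u = C * U - ε * ∫ u in Ioc 0 U, R u := by
      have h2 : IntegrableOn (fun t => C * ex 0 t) (Ioc 0 U) :=
        int_Ioc ((ex_meas 0).const_mul C) (fun w hw => (ex_LInt (c := 0) hw).const_mul C) U
      have h3 : IntegrableOn (fun t => ε * R t) (Ioc 0 U) := (int_Ioc hRm hRi U).const_mul ε
      have h4 : ∀ t, C * ex 0 t = C := fun t => by unfold ex; simp
      have e1 : ∫ u in Ioc 0 U, C * ex 0 u = C * U := by
        simp only [h4]
        simp [hU.le, mul_comm]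
      rw [integral_sub h2 h3, e1, integral_const_mul]
    rw [h1]
    have : ε * (C * U - (C * U - ε * ∫ u in Ioc 0 U, R u)) = (ε * ε) * ∫ u in Ioc 0 U, R u := by ring
    rw [this, hεε, one_mul]
  have hRA : ∀ U : ℝ, ∫ u in Ioc 0 U, R u = (∫ u in Ioc 0 U, A u) - ρ * ∫ u in Ioc 0 U, lg u := by
    intro U
    rw [← integral_const_mul, ← integral_sub (int_Ioc hA hi U)
      ((int_Ioc lg_meas (fun w hw => lg_LInt hw) U).const_mul ρ)]
  have hlgm : Tendsto (fun U : ℝ => (∫ u in Ioc 0 U, lg u) / (U * Real.log U)) atTop (𝓝 1) := by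
    have h1 : Tendsto (fun w : ℝ => w ^ (0 + 1) * lap lg w / (-Real.log w)) (𝓝[>] 0) (𝓝 1) := by
      have h2 : Tendsto (fun w : ℝ => (w * lap lg w + Real.log w) / (-Real.log w))
          (𝓝[>] 0) (𝓝 0) := lg_lim.div_atTop neg_log_inf
      have h3 := h2.add_const 1
      rw [zero_add] at h3
      refine h3.congr' ?_
      filter_upwards [small] with w hw
      have h3 : Real.log w ≠ 0 := by have := hw.2; intro h; rw [h] at this; simp at this
      rw [zero_add, pow_one]
      field_simp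
      ring
    have h2 := karamata 0 lg_meas (fun u _ => lg_nonneg u) (fun w hw => lg_LInt hw) h1
    simpa using h2
  have hfm1 : Tendsto (fun U : ℝ => (∫ u in Ioc 0 U, f u) / (U * Real.log U)) atTop
      (𝓝 (ε * (ρ - m))) := by
    have h2 := karamata 0 hfm hf0 hfi hlog
    simpa using h2
  have hRm1 : Tendsto (fun U : ℝ => (∫ u in Ioc 0 U, R u) / (U * Real.log U)) atTop
      (𝓝 (m - ρ)) := by
    have h1 : Tendsto (fun U : ℝ => C / Real.log U) atTop (𝓝 0) :=
      tendsto_const_nhds.div_atTop Real.tendsto_log_atTop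
    have h2 := (h1.sub hfm1).const_mul ε
    have h3 : ε * (0 - ε * (ρ - m)) = m - ρ := by
      have : ε * (0 - ε * (ρ - m)) = -(ε * ε) * (ρ - m) := by ring
      rw [this, hεε]; ring
    rw [h3] at h2
    refine h2.congr' ?_
    filter_upwards [eventually_gt_atTop 1] with U hU
    have hU0 : 0 < U := by linarith
    have hl : Real.log U ≠ 0 := (Real.log_pos hU).ne'
    rw [hint U hU0]
    field_simp
  have hc3 : m = ρ → Tendsto (fun U : ℝ => (∫ u in Ioc 0 U, R u) / U) atTop (𝓝 (ρ * γ - b)) := by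
    intro hm
    have h1 : Tendsto (fun w : ℝ => w * lap f w) (𝓝[>] 0) (𝓝 (C - ε * (ρ * γ - b))) := by
      have h2 : Tendsto (fun w : ℝ => C - ε * (w * lap R w - (ρ - m) * Real.log w)) (𝓝[>] 0)
          (𝓝 (C - ε * (ρ * γ - b))) := tendsto_const_nhds.sub (hRl.const_mul ε)
      refine h2.congr' ?_
      filter_upwards [self_mem_nhdsWithin] with w hw
      rw [hfl w hw, hm]
      ring
    have h2 := karamata0 hfm hf0 hfi h1
    have h3 : Tendsto (fun U : ℝ => ε * (C - (∫ u in Ioc 0 U, f u) / U)) atTop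
        (𝓝 (ε * (C - (C - ε * (ρ * γ - b))))) := (tendsto_const_nhds.sub h2).const_mul ε
    have h4 : ε * (C - (C - ε * (ρ * γ - b))) = ρ * γ - b := by
      have : ε * (C - (C - ε * (ρ * γ - b))) = (ε * ε) * (ρ * γ - b) := by ring
      rw [this, hεε, one_mul]
    rw [h4] at h3
    refine h3.congr' ?_
    filter_upwards [eventually_gt_atTop 0] with U hU
    rw [hint U hU]
    field_simp
  refine ⟨hnn, ?_, hc3, ?_⟩
  · have h1 := hRm1.add (hlgm.const_mul ρ)
    have h2 : m - ρ + ρ * 1 = m := by ring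
    rw [h2] at h1
    refine h1.congr fun U => ?_
    rw [hRA U]
    ring
  · intro T hT c hc
    have h1 : Tendsto (fun k => (∫ u in Ioc 0 (T k), R u) / (T k * Real.log (T k))) atTop
        (𝓝 (m - ρ)) := hRm1.comp hT
    have h2 : Tendsto (fun k => (∫ u in Ioc 0 (T k), R u) / T k / Real.log (T k)) atTop (𝓝 0) :=
      hc.div_atTop (Real.tendsto_log_atTop.comp hT)
    have h3 : m - ρ = 0 := by
      refine tendsto_nhds_unique (h1.congr fun k => ?_) h2
      rw [div_div]
    have hm : m = ρ := by linarith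
    exact ⟨hm, tendsto_nhds_unique hc ((hc3 hm).comp hT)⟩

/-- the transform is real-analytic -/
theorem lap_analytic {f : ℝ → ℝ} (hf : Measurable f) {a : ℝ} (hi : ∀ w > a, LInt f w) {w : ℝ}
    (hw : a < w) : AnalyticAt ℝ (fun w => lap f w) w := by
  have ho : IsOpen {z : ℂ | a < z.re} := isOpen_lt continuous_const Complex.continuous_re
  have h1 : AnalyticAt ℂ (lapC f) (w : ℂ) := by
    have h2 : DifferentiableOn ℂ (lapC f) {z : ℂ | a < z.re} := fun z hz =>
      (lapC_differentiableAt hf hi hz).differentiableWithinAt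
    exact h2.analyticAt (ho.mem_nhds (by simpa using hw))
  have h3 := h1.re_ofReal
  refine h3.congr (Eventually.of_forall fun x => ?_)
  simp only [lapC_ofReal, Complex.ofReal_re]

/-- **Landau's lemma with a one-sided bound.** -/
theorem landau_os (hA : Measurable A) {w1 : ℝ} (h1 : ∀ w > w1, LInt A w) {a : ℝ} {U : ℝ → ℝ}
    (hU : Measurable U) (hUi : ∀ w > a, LInt U w) {ε : ℝ} (hε : ε = 1 ∨ ε = -1)
    (hle : ∀ t, 0 < t → ε * A t ≤ U t) {g : ℝ → ℝ} (hg : ∀ w > a, AnalyticAt ℝ g w)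
    (heq : ∀ w > w1, a < w → lap A w = g w) :
    (∀ w > a, LInt A w) ∧ ∀ w > a, lap A w = g w := by
  have hεε : ε * ε = 1 := by rcases hε with h | h <;> rw [h] <;> norm_num
  set f : ℝ → ℝ := fun t => U t - ε * A t with hf
  have hfm : Measurable f := hU.sub (hA.const_mul ε)
  have hf0 : ∀ t, 0 < t → 0 ≤ f t := fun t ht => by
    have := hle t ht
    simp only [hf]
    linarith
  obtain ⟨h2, h3⟩ := Pool.Agent.TH988.RB.landau_lap hfm hf0 (a := a) (w1 := max w1 a)
    (fun w hw => (hUi w (lt_of_le_of_lt (le_max_right _ _) hw)).sub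
      ((h1 w (lt_of_le_of_lt (le_max_left _ _) hw)).const_mul ε))
    (g := fun w => lap U w - ε * g w)
    (fun w hw => (lap_analytic hU hUi hw).sub (analyticAt_const.mul (hg w hw)))
    (fun w hw hwa => by
      have hw1 : w1 < w := lt_of_le_of_lt (le_max_left _ _) hw
      rw [← heq w hw1 hwa, ← lap_const_mul, ← lap_sub (hUi w hwa) ((h1 w hw1).const_mul ε)])
  have h4 : ∀ w > a, LInt A w := by
    intro w hw
    have h5 := ((hUi w hw).sub (h2 w hw)).const_mul ε
    have h6 : (fun u => ε * (U u - f u)) = A := by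
      funext u
      simp only [hf]
      have : ε * (U u - (U u - ε * A u)) = (ε * ε) * A u := by ring
      rw [this, hεε, one_mul]
    rwa [h6] at h5
  refine ⟨h4, fun w hw => ?_⟩
  have h5 := h3 w hw
  have h6 : lap f w = lap U w - ε * lap A w := by
    rw [← lap_const_mul, ← lap_sub (hUi w hw) ((h4 w hw).const_mul ε)]
  have h7 : ε * (ε * lap A w) = ε * (ε * g w) := by
    have : ε * lap A w = ε * g w := by linarith
    rw [this]
  rw [← mul_assoc, ← mul_assoc, hεε, one_mul, one_mul] at h7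
  exact h7

end Pool.Agent.E8helper75.OB
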