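import Pool.Agent.E8helper75.OB.Fin

/-! Consequences for the upper and lower limits of the products. -/

set_option autoImplicit false

namespace Pool.Agent.E8helper75.OB

open Complex MeasureTheory Filter Topology Set
open Pool.Agent.W263.BSD
open Pool.Agent.E8helper25.LT

theorem mean_le {R : ℝ → ℝ} (hR : ∀ U : ℝ, IntegrableOn R (Ioc 0 U)) {k l : ℝ}
    (h1 : ∀ᶠ t : ℝ in atTop, R t ≤ k)
    (h2 : Tendsto (fun T : ℝ => (∫ t in Ioc 0 T, R t) / T) atTop (𝓝 l)) : l ≤ k := by
  obtain ⟨T₁, hT₁⟩ := eventually_atTop.1 h1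
  set T₂ : ℝ := max T₁ 0 with hT₂
  have hT20 : 0 ≤ T₂ := le_max_right _ _
  set c : ℝ := ∫ t in Ioc 0 T₂, R t with hc
  have h3 : Tendsto (fun T : ℝ => (c - k * T₂) / T + k) atTop (𝓝 (0 + k)) :=
    (tendsto_const_nhds.div_atTop tendsto_id).add_const k
  rw [zero_add] at h3
  refine le_of_tendsto_of_tendsto h2 h3 ?_
  filter_upwards [eventually_gt_atTop T₂, eventually_gt_atTop 0] with T hT hT0
  have h4 : ∫ t in Ioc 0 T, R t = c + ∫ t in Ioc T₂ T, R t := by
    rw [← Ioc_union_Ioc_eq_Ioc hT20 hT.le, setIntegral_union (by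
      rw [Set.disjoint_left]
      intro x hx hx2
      exact absurd hx.2 (not_le.2 hx2.1)) measurableSet_Ioc (hR T₂)
      ((hR T).mono_set (Ioc_subset_Ioc_left hT20))]
  have h5 : ∫ t in Ioc T₂ T, R t ≤ ∫ _t in Ioc T₂ T, k := by
    refine setIntegral_mono_on ((hR T).mono_set (Ioc_subset_Ioc_left hT20)) (by simp)
      measurableSet_Ioc fun t ht => ?_
    exact hT₁ t (le_trans (le_max_left _ _) ht.1.le)
  have h6 : ∫ _t in Ioc T₂ T, k = (T - T₂) * k := by
    simp [hT.le]
  rw [h6] at h5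
  rw [h4]
  have h7 : (c - k * T₂) / T + k = (c + (T - T₂) * k) / T := by field_simp; ring
  rw [h7]
  gcongr

/-- means of functions tending to zero -/
theorem mean_zero {f : ℝ → ℝ} (hf : ∀ U : ℝ, IntegrableOn f (Ioc 0 U)) (h0 : ∀ t, 0 ≤ f t)
    (h1 : Tendsto f atTop (𝓝 0)) : Tendsto (fun T : ℝ => (∫ t in Ioc 0 T, f t) / T) atTop (𝓝 0) := by
  rw [tendsto_order]
  constructor
  · intro a ha
    filter_upwards [eventually_gt_atTop 0] with T hT
    refine lt_of_lt_of_le ha (div_nonneg (setIntegral_nonneg measurableSet_Ioc fun t _ => h0 t) hT.le)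
  · intro a ha
    obtain ⟨T₁, hT₁⟩ := eventually_atTop.1 (h1.eventually_le_const (show (0 : ℝ) < a / 2 by linarith))
    set T₂ : ℝ := max T₁ 0 with hT₂
    have hT20 : 0 ≤ T₂ := le_max_right _ _
    set c : ℝ := ∫ t in Ioc 0 T₂, f t with hc
    have h3 : Tendsto (fun T : ℝ => c / T + a / 2) atTop (𝓝 (0 + a / 2)) :=
      (tendsto_const_nhds.div_atTop tendsto_id).add_const _
    rw [zero_add] at h3
    filter_upwards [h3.eventually_lt_const (show a / 2 < a by linarith), eventually_gt_atTop T₂,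
      eventually_gt_atTop 0] with T h4 hT hT0
    refine lt_of_le_of_lt ?_ h4
    have h5 : ∫ t in Ioc 0 T, f t = c + ∫ t in Ioc T₂ T, f t := by
      rw [← Ioc_union_Ioc_eq_Ioc hT20 hT.le, setIntegral_union (by
        rw [Set.disjoint_left]
        intro x hx hx2
        exact absurd hx.2 (not_le.2 hx2.1)) measurableSet_Ioc (hf T₂)
        ((hf T).mono_set (Ioc_subset_Ioc_left hT20))]
    have h6 : ∫ t in Ioc T₂ T, f t ≤ ∫ _t in Ioc T₂ T, a / 2 := by
      refine setIntegral_mono_on ((hf T).mono_set (Ioc_subset_Ioc_left hT20)) (by simp)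
        measurableSet_Ioc fun t ht => ?_
      exact hT₁ t (le_trans (le_max_left _ _) ht.1.le)
    have h7 : ∫ _t in Ioc T₂ T, a / 2 = (T - T₂) * (a / 2) := by
      simp [hT.le]
    rw [h7] at h6
    rw [h5]
    have h8 : c / T + a / 2 = (c + T * (a / 2)) / T := by field_simp
    rw [h8]
    refine div_le_div_of_nonneg_right ?_ hT0.le
    nlinarith

/-- a sharp one-sided bound and the mean give convergence in mean -/
theorem mean_abs {R : ℝ → ℝ} (hR : ∀ U : ℝ, IntegrableOn R (Ioc 0 U)) {l ε : ℝ}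
    (hε : ε = 1 ∨ ε = -1) (h1 : ∀ η : ℝ, 0 < η → ∀ᶠ t : ℝ in atTop, ε * (R t - l) ≤ η)
    (h2 : Tendsto (fun T : ℝ => (∫ t in Ioc 0 T, R t) / T) atTop (𝓝 l)) :
    Tendsto (fun T : ℝ => (∫ t in Ioc 0 T, |R t - l|) / T) atTop (𝓝 0) := by
  have hεa : |ε| = 1 := by rcases hε with h | h <;> rw [h] <;> simp
  set b : ℝ → ℝ := fun t => ε * (R t - l) with hb
  have hconst : ∀ U : ℝ, IntegrableOn (fun _ : ℝ => l) (Ioc 0 U) := fun U => by simp
  have hbi : ∀ U : ℝ, IntegrableOn b (Ioc 0 U) := fun U => ((hR U).sub (hconst U)).const_mul ε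
  have hpi : ∀ U : ℝ, IntegrableOn (fun t => max (b t) 0) (Ioc 0 U) := fun U =>
    (hbi U).pos_part
  have h3 := mean_zero hpi (fun t => le_max_right _ _) (by
    rw [tendsto_order]
    constructor
    · intro a ha
      exact Eventually.of_forall fun t => lt_of_lt_of_le ha (le_max_right _ _)
    · intro a ha
      filter_upwards [h1 (a / 2) (by linarith)] with t ht
      refine max_lt ?_ ha
      exact lt_of_le_of_lt ht (by linarith))
  have h4 : Tendsto (fun T : ℝ => (∫ t in Ioc 0 T, b t) / T) atTop (𝓝 0) := by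
    have h5 := (h2.sub_const l).const_mul ε
    rw [sub_self, mul_zero] at h5
    refine h5.congr' ?_
    filter_upwards [eventually_gt_atTop 0] with T hT
    have h6 : ∫ t in Ioc 0 T, b t = ε * ((∫ t in Ioc 0 T, R t) - T * l) := by
      simp only [hb]
      rw [integral_const_mul, integral_sub (hR T) (hconst T)]
      simp [hT.le]
    rw [h6]
    field_simp
  have h5 := (h3.const_mul 2).sub h4
  rw [mul_zero, sub_zero] at h5
  refine h5.congr fun T => ?_
  have h6 : ∫ t in Ioc 0 T, |R t - l| = ∫ t in Ioc 0 T, (2 * max (b t) 0 - b t) := by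
    refine setIntegral_congr_fun measurableSet_Ioc fun t _ => ?_
    have h7 : |R t - l| = |b t| := by simp only [hb]; rw [abs_mul, hεa, one_mul]
    show |R t - l| = 2 * max (b t) 0 - b t
    rw [h7]
    rcases le_total (b t) 0 with h | h
    · rw [abs_of_nonpos h, max_eq_right h]; ring
    · rw [abs_of_nonneg h, max_eq_left h]; ring
  have h8 : ∫ t in Ioc 0 T, (2 * max (b t) 0 - b t) =
      2 * (∫ t in Ioc 0 T, max (b t) 0) - ∫ t in Ioc 0 T, b t := by
    rw [integral_sub ((hpi T).const_mul 2) (hbi T)]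
    congr 1
    exact integral_const_mul _ _
  rw [h6, h8]
  ring

section

variable {g : ℕ} {S : Finset Nat.Primes} {α : Nat.Primes → Fin (2 * g) → ℂ}
  {P : Nat.Primes → ℕ → ℝ} {F : ℂ → ℂ}

theorem Q_to_P (h : Pt S α P) {ε : ℝ} (hε : ε = 1 ∨ ε = -1) {ρ k : ℝ}
    (he : ∀ᶠ T : ℝ in atTop, ε * (SA qp (bt S α 0) T - ρ * Real.log T) ≤ k) :
    ∃ C₀ : ℝ, ∀ᶠ T : ℝ in atTop,
      ε * (Real.log (Pn S g P (Real.exp T)) - ρ * Real.log T) ≤ C₀ := by
  obtain ⟨C₁, hC₁⟩ := PQ h
  refine ⟨k + C₁, ?_⟩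
  filter_upwards [he, hC₁] with T h1 h2
  have habs : ∀ x : ℝ, -(ε * x) ≤ |x| := by
    intro x
    rcases hε with h | h
    · rw [h, one_mul]; exact neg_le_abs _
    · rw [h, neg_one_mul, neg_neg]; exact le_abs_self _
  have := habs (SA qp (bt S α 0) T - Real.log (Pn S g P (Real.exp T)))
  linarith

theorem SA_int (h : Pt S α P) (U : ℝ) : IntegrableOn (SA qp (bt S α 0)) (Ioc 0 U) := by
  have D := lpQ h.par 0
  have h2 : IntegrableOn (fun t => SA qp (bt S α 0) t * Real.exp (-(2 * t))) (Ioc 0 U) :=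
    IntegrableOn.mono_set (SA_LInt D 2 (by norm_num)) Ioc_subset_Ioi_self
  refine Integrable.mono (Integrable.const_mul h2 (Real.exp (2 * U)))
    (SA_meas D).aestronglyMeasurable ?_
  refine (ae_restrict_iff' measurableSet_Ioc).mpr (Eventually.of_forall fun u hu => ?_)
  rw [norm_mul, norm_mul, Real.norm_of_nonneg (Real.exp_pos _).le,
    Real.norm_of_nonneg (Real.exp_pos _).le]
  have h2 : 1 ≤ Real.exp (2 * U) * Real.exp (-(2 * u)) := by
    rw [← Real.exp_add]
    apply Real.one_le_exp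
    linarith [hu.2]
  have h3 := norm_nonneg (SA qp (bt S α 0) u)
  nlinarith

theorem R_int (h : Pt S α P) (r : ℝ) (U : ℝ) :
    IntegrableOn (fun t => SA qp (bt S α 0) t - r * lg t) (Ioc 0 U) :=
  (SA_int h U).sub ((int_Ioc lg_meas (fun _ hw => lg_LInt hw) U).const_mul r)

/-- the mean under a one-sided bound for `Q` -/
theorem mean_of (h : Pt S α P) (hE : ∀ s : ℂ, 3 / 2 < s.re → F s = LFn S α s)
    (ha : ∀ x ∈ Icc (1 : ℝ) (3 / 2), AnalyticAt ℂ F x) {r : ℕ} {B : ℝ} (hB : 0 < B)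
    (hlim : Tendsto (fun s => F s / (s - 1) ^ r) (𝓝[≠] 1) (𝓝 (B : ℂ)))
    {ε : ℝ} (hε : ε = 1 ∨ ε = -1) {k : ℝ}
    (he : ∀ᶠ T : ℝ in atTop, ε * (SA qp (bt S α 0) T - r * Real.log T) ≤ k)
    (hne : ε = -1 → ∀ x : ℝ, 1 < x → x ≤ 3 / 2 → F x ≠ 0) :
    Tendsto (fun T => (∫ t in Ioc 0 T, (SA qp (bt S α 0) t - r * lg t)) / T) atTop
      (𝓝 (r * Real.eulerMascheroniConstant - Real.log B)) := by
  obtain ⟨C₀, he'⟩ := Q_to_P h hε he
  obtain ⟨hi, m, B', hB', hlim', hl⟩ := log_main h hE ha hε he' hne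
  have hA := SA_meas (lpQ h.par 0)
  obtain ⟨C, hC⟩ := one_log h hε he'
  obtain ⟨-, -, c3, -⟩ := core hA hi hl hε hC
  have hF1 : MeromorphicAt F 1 := by
    have := ha 1 ⟨le_rfl, by norm_num⟩
    rw [Complex.ofReal_one] at this
    exact this.meromorphicAt
  have hBc : (B : ℂ) ≠ 0 := by exact_mod_cast hB.ne'
  have hBc' : (B' : ℂ) ≠ 0 := by exact_mod_cast hB'.ne'
  have l1 := lead_iff hF1 (r : ℤ) hBc
  have l2 := lead_iff hF1 (m : ℤ) hBc'
  simp only [zpow_natCast] at l1 l2
  obtain ⟨o1, o2⟩ := l2.1 hlim'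
  obtain ⟨o3, o4⟩ := l1.1 hlim
  rw [o1] at o3
  have hm : (m : ℤ) = r := by exact_mod_cast o3
  have hm' : m = r := by exact_mod_cast hm
  have hBB : B' = B := by
    rw [o2] at o4
    exact_mod_cast o4
  rw [← hBB]
  exact c3 (by rw [hm'])

theorem log_Q_pow (h : Pt S α P) {c : ℝ} (hc : 0 < c) (r : ℕ) {T : ℝ} (hT : 0 < T) :
    (Qn S g P (Real.exp T) ≤ c * Real.log (Real.exp T) ^ r ↔
      SA qp (bt S α 0) T - r * Real.log T ≤ Real.log c) ∧
    (c * Real.log (Real.exp T) ^ r ≤ Qn S g P (Real.exp T) ↔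
      Real.log c ≤ SA qp (bt S α 0) T - r * Real.log T) := by
  rw [Real.log_exp, SA_eq h hT.le]
  have h1 : (0 : ℝ) < T ^ r := pow_pos hT r
  have h2 : Real.log (c * T ^ r) = Real.log c + r * Real.log T := by
    rw [Real.log_mul hc.ne' h1.ne', Real.log_pow]
  constructor
  · rw [← Real.log_le_log_iff (Qn_pos h _) (mul_pos hc h1), h2]
    constructor <;> intro h <;> linarith
  · rw [← Real.log_le_log_iff (mul_pos hc h1) (Qn_pos h _), h2]
    constructor <;> intro h <;> linarith

/-- the eventual statements in `x` and in `T` -/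
theorem ev_exp {p : ℝ → Prop} : (∀ᶠ x : ℝ in atTop, p x) ↔ ∀ᶠ T : ℝ in atTop, p (Real.exp T) := by
  constructor
  · exact fun h => Real.tendsto_exp_atTop.eventually h
  · intro h
    have h1 := Real.tendsto_log_atTop.eventually h
    filter_upwards [h1, eventually_gt_atTop 0] with x hx hx0
    rwa [Real.exp_log hx0] at hx

/-- **Upper and lower limits.** -/
theorem limits (h : Pt S α P) (hE : ∀ s : ℂ, 3 / 2 < s.re → F s = LFn S α s)
    (ha : ∀ x ∈ Icc (1 : ℝ) (3 / 2), AnalyticAt ℂ F x) {r : ℕ} {B : ℝ} (hB : 0 < B)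
    (hlim : Tendsto (fun s => F s / (s - 1) ^ r) (𝓝[≠] 1) (𝓝 (B : ℂ))) :
    (∀ c : ℝ, c < Real.exp (r * Real.eulerMascheroniConstant) / B →
      ∃ᶠ x : ℝ in atTop, c * Real.log x ^ r < Qn S g P x) ∧
    ((∀ x : ℝ, 1 < x → x ≤ 3 / 2 → F x ≠ 0) →
      ∀ c : ℝ, Real.exp (r * Real.eulerMascheroniConstant) / B < c →
      ∃ᶠ x : ℝ in atTop, Qn S g P x < c * Real.log x ^ r) ∧
    (((∀ c : ℝ, Real.exp (r * Real.eulerMascheroniConstant) / B < c →
        ∀ᶠ x : ℝ in atTop, Qn S g P x ≤ c * Real.log x ^ r) ∨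
      ((∀ x : ℝ, 1 < x → x ≤ 3 / 2 → F x ≠ 0) ∧
        ∀ c : ℝ, 0 < c → c < Real.exp (r * Real.eulerMascheroniConstant) / B →
        ∀ᶠ x : ℝ in atTop, c * Real.log x ^ r ≤ Qn S g P x)) →
      Tendsto (fun T : ℝ => (∫ t in (0 : ℝ)..T, |Real.log (Qn S g P (Real.exp t) / t ^ r) -
        Real.log (Real.exp (r * Real.eulerMascheroniConstant) / B)|) / T) atTop (𝓝 0)) := by
  set c₀ : ℝ := Real.exp (r * Real.eulerMascheroniConstant) / B with hc₀
  have hc0 : 0 < c₀ := div_pos (Real.exp_pos _) hB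
  have hlc : Real.log c₀ = r * Real.eulerMascheroniConstant - Real.log B := by
    rw [hc₀, Real.log_div (Real.exp_pos _).ne' hB.ne', Real.log_exp]
  have hlg : ∀ᶠ T : ℝ in atTop, lg T = Real.log T := by
    filter_upwards [eventually_ge_atTop 1] with T hT
    exact max_eq_left (Real.log_nonneg hT)
  refine ⟨fun c hc hcon => ?_, fun hne c hc hcon => ?_, fun hor => ?_⟩
  · -- upper limit
    simp only [not_lt] at hcon
    rw [ev_exp] at hcon
    have hcp : 0 < c := by
      obtain ⟨T, h1, h2⟩ := (hcon.and (eventually_gt_atTop 0)).exists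
      rw [Real.log_exp] at h1
      have h3 := lt_of_lt_of_le (Qn_pos h _) h1
      exact (mul_pos_iff_of_pos_right (pow_pos h2 r)).1 h3
    have he : ∀ᶠ T : ℝ in atTop, 1 * (SA qp (bt S α 0) T - r * Real.log T) ≤ Real.log c := by
      filter_upwards [hcon, eventually_gt_atTop 0] with T h1 h2
      rw [one_mul]
      exact (log_Q_pow h hcp r h2).1.1 h1
    have h1 := mean_of h hE ha hB hlim (Or.inl rfl) he (fun h => by norm_num at h)
    have h2 := mean_le (fun U => R_int h r U) (k := Real.log c) (by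
      filter_upwards [he, hlg] with T h3 h4
      rw [h4]; linarith) h1
    rw [← hlc] at h2
    have := Real.log_lt_log hcp hc
    linarith
  · -- lower limit
    simp only [not_lt] at hcon
    rw [ev_exp] at hcon
    have hcp : 0 < c := hc0.trans hc
    have he : ∀ᶠ T : ℝ in atTop, -1 * (SA qp (bt S α 0) T - r * Real.log T) ≤ -Real.log c := by
      filter_upwards [hcon, eventually_gt_atTop 0] with T h1 h2
      have := (log_Q_pow h hcp r h2).2.1 h1
      linarith
    have h1 := mean_of h hE ha hB hlim (Or.inr rfl) he (fun _ => hne)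
    have h2 := mean_le (R := fun t => -(SA qp (bt S α 0) t - r * lg t)) (k := -Real.log c)
      (fun U => (R_int h r U).neg) (by
      filter_upwards [he, hlg] with T h3 h4
      rw [h4]; linarith) (l := -(r * Real.eulerMascheroniConstant - Real.log B)) (by
      refine h1.neg.congr fun T => ?_
      rw [integral_neg, neg_div])
    rw [← hlc] at h2
    have := Real.log_lt_log hc0 hc
    linarith
  · -- convergence in mean
    obtain ⟨ε, hε, hne, hb⟩ : ∃ ε : ℝ, (ε = 1 ∨ ε = -1) ∧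
        (ε = -1 → ∀ x : ℝ, 1 < x → x ≤ 3 / 2 → F x ≠ 0) ∧
        ∀ η : ℝ, 0 < η → ∀ᶠ T : ℝ in atTop,
          ε * (SA qp (bt S α 0) T - r * Real.log T - Real.log c₀) ≤ η := by
      rcases hor with hu | ⟨hne, hl⟩
      · refine ⟨1, Or.inl rfl, fun h => by norm_num at h, fun η hη => ?_⟩
        have h1 := hu (c₀ * Real.exp η) (by
          have := Real.one_lt_exp_iff.2 hη
          nlinarith)
        rw [ev_exp] at h1
        filter_upwards [h1, eventually_gt_atTop 0] with T h2 h3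
        have := (log_Q_pow h (mul_pos hc0 (Real.exp_pos η)) r h3).1.1 h2
        rw [Real.log_mul hc0.ne' (Real.exp_pos _).ne', Real.log_exp] at this
        linarith
      · refine ⟨-1, Or.inr rfl, fun _ => hne, fun η hη => ?_⟩
        have h1 := hl (c₀ * Real.exp (-η)) (mul_pos hc0 (Real.exp_pos _)) (by
          have : Real.exp (-η) < 1 := by rw [Real.exp_lt_one_iff]; linarith
          nlinarith)
        rw [ev_exp] at h1
        filter_upwards [h1, eventually_gt_atTop 0] with T h2 h3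
        have := (log_Q_pow h (mul_pos hc0 (Real.exp_pos (-η))) r h3).2.1 h2
        rw [Real.log_mul hc0.ne' (Real.exp_pos _).ne', Real.log_exp] at this
        linarith
    have he : ∀ᶠ T : ℝ in atTop, ε * (SA qp (bt S α 0) T - r * Real.log T) ≤
        1 + ε * Real.log c₀ := by
      filter_upwards [hb 1 one_pos] with T hT
      linarith
    have h1 := mean_of h hE ha hB hlim hε he hne
    rw [← hlc] at h1
    have h2 := mean_abs (fun U => R_int h r U) hε (fun η hη => by
      filter_upwards [hb η hη, hlg] with T h3 h4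
      rw [h4]; exact h3) h1
    -- from `lg` to `log`
    set K : ℝ → ℝ := fun t => |SA qp (bt S α 0) t - r * Real.log t - Real.log c₀| with hK
    set K' : ℝ → ℝ := fun t => |SA qp (bt S α 0) t - r * lg t - Real.log c₀| with hK'
    have hlog : ∀ U : ℝ, IntegrableOn Real.log (Ioc 0 U) := fun U =>
      int_Ioc Real.measurable_log (fun w hw => log_LInt hw) U
    have iK : ∀ U : ℝ, IntegrableOn K (Ioc 0 U) := fun U =>
      (((SA_int h U).sub ((hlog U).const_mul _)).sub (by simp)).abs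
    have iK' : ∀ U : ℝ, IntegrableOn K' (Ioc 0 U) := fun U => ((R_int h r U).sub (by simp)).abs
    have h3 : ∀ U : ℝ, 1 ≤ U → ∫ t in Ioc 0 U, K t =
        (∫ t in Ioc 0 U, K' t) + ((∫ t in Ioc 0 1, K t) - ∫ t in Ioc 0 1, K' t) := by
      intro U hU
      have hs : ∀ f : ℝ → ℝ, IntegrableOn f (Ioc 0 U) → ∫ t in Ioc 0 U, f t =
          (∫ t in Ioc 0 1, f t) + ∫ t in Ioc 1 U, f t := by
        intro f hf
        rw [← Ioc_union_Ioc_eq_Ioc zero_le_one hU, setIntegral_union (by
          rw [Set.disjoint_left]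
          intro x hx hx2
          exact absurd hx.2 (not_le.2 hx2.1)) measurableSet_Ioc
          (hf.mono_set (Ioc_subset_Ioc_right hU)) (hf.mono_set (Ioc_subset_Ioc_left zero_le_one))]
      rw [hs K (iK U), hs K' (iK' U)]
      have : ∫ t in Ioc 1 U, K t = ∫ t in Ioc 1 U, K' t := by
        refine setIntegral_congr_fun measurableSet_Ioc fun t ht => ?_
        show |SA qp (bt S α 0) t - r * Real.log t - Real.log c₀| =
          |SA qp (bt S α 0) t - r * lg t - Real.log c₀|
        have : lg t = Real.log t := max_eq_left (Real.log_nonneg ht.1.le)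
        rw [this]
      rw [this]
      ring
    have h4 : Tendsto (fun T : ℝ => (∫ t in Ioc 0 T, K' t) / T +
        ((∫ t in Ioc 0 1, K t) - ∫ t in Ioc 0 1, K' t) / T) atTop (𝓝 (0 + 0)) :=
      h2.add (tendsto_const_nhds.div_atTop tendsto_id)
    rw [add_zero] at h4
    refine h4.congr' ?_
    filter_upwards [eventually_ge_atTop 1] with T hT
    rw [intervalIntegral.integral_of_le (by linarith), ← add_div, ← h3 T hT]
    congr 1
    refine setIntegral_congr_fun measurableSet_Ioc fun t ht => ?_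
    have ht0 : 0 < t := ht.1
    show |SA qp (bt S α 0) t - r * Real.log t - Real.log c₀| = _
    rw [SA_eq h ht0.le, Real.log_div (Qn_pos h _).ne' (pow_pos ht0 r).ne', Real.log_pow]

end

end Pool.Agent.E8helper75.OB
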