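import Pool.Agent.E8helper75.OB.Pr
import Pool.Agent.E8helper25.LT.GCrit

/-! One-sided bounds for the truncated products of the numbers of points: conclusion. -/

set_option autoImplicit false

namespace Pool.Agent.E8helper75.OB

open Complex MeasureTheory Filter Topology Set
open Pool.Agent.W263.BSD
open Pool.Agent.E8helper25.LT

section

variable {g : ℕ} {S : Finset Nat.Primes} {α : Nat.Primes → Fin (2 * g) → ℂ}
  {P : Nat.Primes → ℕ → ℝ} {F : ℂ → ℂ}

theorem lg_mono {s t : ℝ} (hs : 0 < s) (h : s ≤ t) : lg s ≤ lg t :=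
  max_le_max (Real.log_le_log hs h) le_rfl

/-- from large arguments to all arguments -/
theorem globalize (h : Pt S α P) {ε : ℝ} (hε : ε = 1 ∨ ε = -1) {V : ℝ → ℝ}
    (hV : ∀ T₀ : ℝ, ∃ M : ℝ, ∀ t, 0 < t → t ≤ T₀ → -V t ≤ M)
    (he : ∀ᶠ T : ℝ in atTop, ε * SA qp (bt S α 0) T ≤ V T) :
    ∃ C : ℝ, 0 ≤ C ∧ ∀ t, 0 < t → ε * SA qp (bt S α 0) t ≤ C + V t := by
  have D := lpQ h.par 0
  obtain ⟨T₀, hT₀⟩ := eventually_atTop.1 he
  obtain ⟨M, hM⟩ := hV T₀
  set K : ℝ := (∑' i, |ce (bt S α 0) i| * Real.exp (-(2 * la qp i))) * Real.exp (2 * |T₀|) with hK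
  have hK0 : 0 ≤ K := mul_nonneg (tsum_nonneg fun i => by positivity) (Real.exp_pos _).le
  refine ⟨K + |M|, by positivity, fun t ht => ?_⟩
  rcases le_total T₀ t with h1 | h1
  · have := hT₀ t h1
    have := abs_nonneg M
    linarith
  · have h2 := sm_le (lp_ab D) (s := 2) (by norm_num) (by norm_num) t
    have h3 : Real.exp (2 * t) ≤ Real.exp (2 * |T₀|) := by
      apply Real.exp_le_exp.2
      have := le_abs_self T₀
      linarith
    have h4 : |SA qp (bt S α 0) t| ≤ K := by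
      refine h2.trans ?_
      exact mul_le_mul_of_nonneg_left h3 (tsum_nonneg fun i => by positivity)
    have h5 : ε * SA qp (bt S α 0) t ≤ |SA qp (bt S α 0) t| := by
      rcases hε with h | h
      · rw [h, one_mul]; exact le_abs_self _
      · rw [h, neg_one_mul]; exact neg_le_abs _
    have h6 := hM t ht h1
    have h7 := le_abs_self M
    linarith

/-- the bound for the corrected products -/
theorem one_log (h : Pt S α P) {ε : ℝ} (hε : ε = 1 ∨ ε = -1) {ρ C₀ : ℝ}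
    (he : ∀ᶠ T : ℝ in atTop, ε * (Real.log (Pn S g P (Real.exp T)) - ρ * Real.log T) ≤ C₀) :
    ∃ C : ℝ, ∀ t, 0 < t → ε * (SA qp (bt S α 0) t - ρ * lg t) ≤ C := by
  obtain ⟨C₁, hC₁⟩ := PQ h
  have habs : ∀ x : ℝ, ε * x ≤ |x| := by
    intro x
    rcases hε with h | h
    · rw [h, one_mul]; exact le_abs_self _
    · rw [h, neg_one_mul]; exact neg_le_abs _
  obtain ⟨C, hC0, hC⟩ := globalize h hε (V := fun t => C₀ + C₁ + ε * (ρ * lg t)) (fun T₀ => by
    refine ⟨|C₀| + |C₁| + |ρ| * lg T₀, fun t ht htT => ?_⟩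
    have h1 : -(ε * (ρ * lg t)) ≤ |ρ| * lg T₀ := by
      have h2 := habs (-(ρ * lg t))
      rw [abs_neg, abs_mul, abs_of_nonneg (lg_nonneg t)] at h2
      have h3 : |ρ| * lg t ≤ |ρ| * lg T₀ :=
        mul_le_mul_of_nonneg_left (lg_mono ht htT) (abs_nonneg _)
      linarith
    have := neg_abs_le C₀
    have := neg_abs_le C₁
    linarith) (by
    filter_upwards [he, hC₁, eventually_ge_atTop 1] with T h1 h2 h3
    have h4 := habs (SA qp (bt S α 0) T - Real.log (Pn S g P (Real.exp T)))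
    have h5 : lg T = Real.log T := max_eq_left (Real.log_nonneg h3)
    rw [h5]
    linarith)
  refine ⟨C + (C₀ + C₁), fun t ht => ?_⟩
  have := hC t ht
  linarith

/-- `Φ(w) = F(1 + w)` -/
theorem phi_exp (h : Pt S α P) (hE : ∀ s : ℂ, 3 / 2 < s.re → F s = LFn S α s) :
    ∀ w : ℂ, 1 < w.re → F (1 + w) = exp (gg qp (bt S α 0) w) := by
  intro w hw
  have := hexp h.par hE 0 hw
  rwa [pow_zero, mul_one] at this

theorem phi_an (h : Pt S α P) (hE : ∀ s : ℂ, 3 / 2 < s.re → F s = LFn S α s) {θ : ℝ}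
    (ha : ∀ x : ℝ, 1 + θ < x → x ≤ 3 / 2 → AnalyticAt ℂ F x) :
    ∀ x : ℝ, θ < x → AnalyticAt ℂ (fun w => F (1 + w)) x := by
  intro x hx
  have h1 : AnalyticAt ℂ F (1 + x : ℝ) := by
    by_cases h2 : 1 + x ≤ 3 / 2
    · exact ha _ (by linarith) h2
    · push Not at h2
      exact extend h.par hE h2
  refine AnalyticAt.comp_of_eq (g := F) (f := fun w : ℂ => 1 + w) h1 (by fun_prop) ?_
  push_cast
  rfl

/-- the continuation of the L-function -/
theorem cont (h : Pt S α P) (hE : ∀ s : ℂ, 3 / 2 < s.re → F s = LFn S α s) {θ : ℝ}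
    (hθ : 0 ≤ θ) (hi : ∀ w > θ, LInt (SA qp (bt S α 0)) w) (hθ2 : θ < 1 / 2) :
    ∃ G : ℂ → ℂ, (∀ s : ℂ, 1 + θ < s.re → DifferentiableAt ℂ G s ∧ G s ≠ 0) ∧
      ∀ s : ℂ, 3 / 2 < s.re → G s = LFn S α s := by
  obtain ⟨Ψ, h1, h2⟩ := os_cont (lpQ h.par 0) (phi_exp h hE) hθ hi
  have hG : ∀ s : ℂ, 1 + θ < s.re → DifferentiableAt ℂ (fun s => Ψ (s - 1)) s := by
    intro s hs
    have := (h1 (s - 1) (by rw [Complex.sub_re, Complex.one_re]; linarith)).1
    exact DifferentiableAt.comp (g := Ψ) (f := fun s => s - 1) s this (by fun_prop)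
  refine ⟨fun s => Ψ (s - 1), fun s hs => ⟨hG s hs,
    (h1 (s - 1) (by rw [Complex.sub_re, Complex.one_re]; linarith)).2⟩, ?_⟩
  -- the identity theorem on `Re s > 3/2`
  obtain ⟨a, ha⟩ := LFn_coeff h.par
  have hopen : IsOpen {z : ℂ | 3 / 2 < z.re} := isOpen_lt continuous_const Complex.continuous_re
  have hconv : Convex ℝ {z : ℂ | 3 / 2 < z.re} := convex_halfSpace_re_gt _
  have e1 : AnalyticOnNhd ℂ (fun s => Ψ (s - 1)) {z : ℂ | 3 / 2 < z.re} := by
    intro s hs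
    have hd : DifferentiableOn ℂ (fun s => Ψ (s - 1)) {z : ℂ | 3 / 2 < z.re} := fun z hz =>
      (hG z (by have : 3 / 2 < z.re := hz; linarith)).differentiableWithinAt
    exact hd.analyticAt (hopen.mem_nhds hs)
  have e2 : AnalyticOnNhd ℂ (LFn S α) {z : ℂ | 3 / 2 < z.re} := by
    intro s hs
    have hs' : 3 / 2 < s.re := hs
    have h3 : LSeries a =ᶠ[𝓝 s] LFn S α := by
      filter_upwards [hopen.mem_nhds hs] with z hz
      exact (ha z hz).LSeries_eq
    refine AnalyticAt.congr ?_ h3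
    refine LSeries_analyticOnNhd a _ ?_
    have h2 : LSeries.abscissaOfAbsConv a ≤ ((3 / 2 : ℝ) : EReal) :=
      LSeries.abscissaOfAbsConv_le_of_forall_lt_LSeriesSummable fun y hy =>
        (ha y (by rw [Complex.ofReal_re]; linarith)).LSeriesSummable
    refine lt_of_le_of_lt h2 ?_
    exact_mod_cast hs'
  have h3 : ((3 : ℝ) : ℂ) ∈ {z : ℂ | 3 / 2 < z.re} := by
    show (3 / 2 : ℝ) < ((3 : ℝ) : ℂ).re
    rw [Complex.ofReal_re]; norm_num
  have h4 : (fun s => Ψ (s - 1)) =ᶠ[𝓝 ((3 : ℝ) : ℂ)] LFn S α := by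
    have ho : IsOpen {z : ℂ | 2 < z.re} := isOpen_lt continuous_const Complex.continuous_re
    filter_upwards [ho.mem_nhds (show (2 : ℝ) < ((3 : ℝ) : ℂ).re by rw [Complex.ofReal_re]; norm_num)]
      with z hz
    have hz' : 2 < z.re := hz
    rw [h2 (z - 1) (by rw [Complex.sub_re, Complex.one_re]; linarith), ← hE z (by linarith)]
    congr 1
    ring
  exact fun s hs => e1.eqOn_of_preconnected_of_eventuallyEq e2 hconv.isPreconnected h3 h4 hs

theorem lfn_exp (h : Par S α) {w : ℂ} (hw : 1 / 2 < w.re) :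
    LFn S α (1 + w) = exp (gg qp (bt S α 0) w) := by
  have h1 := (lpQ h 0).exp_gg hw
  rw [← h1.tprod_eq]
  unfold LFn
  refine tprod_congr fun p => ?_
  unfold bt
  rw [Fin.prod_univ_add]
  simp only [Fin.append_left, Finset.univ_eq_empty, Finset.prod_empty, mul_one]
  by_cases hp : p ∈ S
  · rw [if_pos hp]
    refine (Finset.prod_eq_one fun j _ => ?_).symm
    unfold bA
    rw [if_pos hp, zero_mul, sub_zero, inv_one]
  · rw [if_neg hp]
    refine Finset.prod_congr rfl fun j _ => ?_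
    unfold bA
    rw [if_neg hp, qp_y]
    congr 2
    ring

theorem lfn_ne (h : Par S α) {s : ℂ} (hs : 3 / 2 < s.re) : LFn S α s ≠ 0 := by
  have h1 := lfn_exp h (w := s - 1) (by rw [Complex.sub_re, Complex.one_re]; linarith)
  rw [add_sub_cancel] at h1
  rw [h1]
  exact Complex.exp_ne_zero _

/-- **One-sided bounds of exponential type.** -/
theorem sub_exp (h : Pt S α P) (hE : ∀ s : ℂ, 3 / 2 < s.re → F s = LFn S α s) {θ : ℝ}
    (hθ : 0 ≤ θ) (hθ2 : θ < 1 / 2) (ha : ∀ x : ℝ, 1 + θ < x → x ≤ 3 / 2 → AnalyticAt ℂ F x)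
    {ε : ℝ} (hε : ε = 1 ∨ ε = -1)
    (he : ∀ η : ℝ, 0 < η → ∀ᶠ T : ℝ in atTop,
      ε * Real.log (Pn S g P (Real.exp T)) ≤ Real.exp ((θ + η) * T))
    (hne : ε = -1 → ∀ x : ℝ, 1 + θ < x → x ≤ 3 / 2 → F x ≠ 0) :
    ∃ G : ℂ → ℂ, (∀ s : ℂ, 1 + θ < s.re → DifferentiableAt ℂ G s ∧ G s ≠ 0) ∧
      ∀ s : ℂ, 3 / 2 < s.re → G s = LFn S α s := by
  have D := lpQ h.par 0
  refine cont h hE hθ (fun w hw => ?_) hθ2
  obtain ⟨C₁, hC₁⟩ := PQ h
  have habs : ∀ x : ℝ, ε * x ≤ |x| := by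
    intro x
    rcases hε with h | h
    · rw [h, one_mul]; exact le_abs_self _
    · rw [h, neg_one_mul]; exact neg_le_abs _
  set η : ℝ := (w - θ) / 2 with hη
  have hη0 : 0 < η := by rw [hη]; linarith
  obtain ⟨C, hC0, hC⟩ := globalize h hε (V := fun t => |C₁| + Real.exp ((θ + η) * t)) (fun T₀ => by
    refine ⟨0, fun t _ _ => ?_⟩
    have := Real.exp_pos ((θ + η) * t)
    have := abs_nonneg C₁
    linarith) (by
    filter_upwards [he η hη0, hC₁] with T h1 h2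
    have h4 := habs (SA qp (bt S α 0) T - Real.log (Pn S g P (Real.exp T)))
    have := le_abs_self C₁
    linarith)
  have hne' : ε = -1 → ∀ x : ℝ, θ + η < x → F (1 + x) ≠ 0 := by
    intro h1 x hx
    by_cases h2 : 1 + x ≤ 3 / 2
    · have := hne h1 (1 + x) (by linarith) h2
      rwa [Complex.ofReal_add, Complex.ofReal_one] at this
    · push Not at h2
      have h3 : 3 / 2 < ((1 : ℂ) + x).re := by
        rw [Complex.add_re, Complex.one_re, Complex.ofReal_re]; exact h2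
      rw [hE _ h3]
      exact lfn_ne h.par h3
  obtain ⟨-, h2, -⟩ := os_main D (phi_exp h hE) (θ := θ + η) (by linarith)
    (fun x hx => phi_an h hE ha x (by linarith))
    (U := fun t => (C + |C₁|) * ex 0 t + ex (θ + η) t)
    (((ex_meas 0).const_mul _).add (ex_meas _))
    (fun w hw => ((ex_LInt (c := 0) (by linarith)).const_mul _).add (ex_LInt hw)) hε
    (fun t ht => by
      have h1 := hC t ht
      have h2 : ex 0 t = 1 := by unfold ex; simp
      rw [h2]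
      unfold ex
      linarith) hne'
  exact h2 w (by rw [hη]; linarith)

theorem Qn_pos (h : Pt S α P) (x : ℝ) : 0 < Qn S g P x := by
  classical
  unfold Qn
  refine mul_pos (Pn_pos h x) (Finset.prod_pos fun p hp => ?_)
  have h1 := pt_pos h (mem_pr.1 (Finset.mem_sdiff.1 hp).1).2 (e := 2) two_ne_zero
  have h2 : (0 : ℝ) < ((p : ℕ) : ℝ) := by exact_mod_cast p.2.pos
  positivity

/-- **Bounds by powers of the logarithm.** -/
theorem log_main (h : Pt S α P) (hE : ∀ s : ℂ, 3 / 2 < s.re → F s = LFn S α s)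
    (ha : ∀ x ∈ Icc (1 : ℝ) (3 / 2), AnalyticAt ℂ F x) {ε : ℝ} (hε : ε = 1 ∨ ε = -1) {ρ C₀ : ℝ}
    (he : ∀ᶠ T : ℝ in atTop, ε * (Real.log (Pn S g P (Real.exp T)) - ρ * Real.log T) ≤ C₀)
    (hne : ε = -1 → ∀ x : ℝ, 1 < x → x ≤ 3 / 2 → F x ≠ 0) :
    (∀ w > 0, LInt (SA qp (bt S α 0)) w) ∧ ∃ (m : ℕ) (B : ℝ), 0 < B ∧
      Tendsto (fun s => F s / (s - 1) ^ m) (𝓝[≠] 1) (𝓝 (B : ℂ)) ∧
      Tendsto (fun w : ℝ => w * lap (SA qp (bt S α 0)) w + m * Real.log w) (𝓝[>] 0)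
        (𝓝 (-Real.log B)) := by
  have D := lpQ h.par 0
  obtain ⟨C, hC⟩ := one_log h hε he
  have ha' : ∀ x : ℝ, 1 + 0 < x → x ≤ 3 / 2 → AnalyticAt ℂ F x := fun x h1 h2 =>
    ha x ⟨by linarith, h2⟩
  have hne' : ε = -1 → ∀ x : ℝ, 0 < x → F (1 + x) ≠ 0 := by
    intro h1 x hx
    by_cases h2 : 1 + x ≤ 3 / 2
    · have := hne h1 (1 + x) (by linarith) h2
      rwa [Complex.ofReal_add, Complex.ofReal_one] at this
    · push Not at h2
      have h3 : 3 / 2 < ((1 : ℂ) + x).re := by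
        rw [Complex.add_re, Complex.one_re, Complex.ofReal_re]; exact h2
      rw [hE _ h3]
      exact lfn_ne h.par h3
  obtain ⟨h1, h2, h3⟩ := os_main D (phi_exp h hE) (θ := 0) le_rfl
    (fun x hx => phi_an h hE ha' x hx)
    (U := fun t => C * ex 0 t + (ε * ρ) * lg t)
    (((ex_meas 0).const_mul _).add (lg_meas.const_mul _))
    (fun w hw => ((ex_LInt (c := 0) hw).const_mul _).add ((lg_LInt hw).const_mul _)) hε
    (fun t ht => by
      have h1 := hC t ht
      have h2 : ex 0 t = 1 := by unfold ex; simp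
      rw [h2]
      linarith) hne'
  refine ⟨h2, ?_⟩
  have h0 : AnalyticAt ℂ (fun w => F (1 + w)) 0 := by
    have h4 := ha 1 ⟨le_rfl, by norm_num⟩
    rw [Complex.ofReal_one] at h4
    exact AnalyticAt.comp_of_eq (g := F) (f := fun w : ℂ => 1 + w) h4 (by fun_prop) (by simp)
  have hpos : ∀ x : ℝ, 0 < x → 0 < (F (1 + x)).re ∧ (F (1 + x)).im = 0 := fun x hx =>
    ⟨phi_pos D (phi_exp h hE) (fun x hx => phi_an h hE ha' x hx) h1 hx,
      phi_im D (phi_exp h hE) (fun x hx => phi_an h hE ha' x hx) hx⟩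
  obtain ⟨m, B, hB, h4, h5⟩ := at_zero D (Φ := fun w => F (1 + w)) h0 hpos h3
  refine ⟨m, B, hB, ?_, h5⟩
  have h6 : Tendsto (fun s : ℂ => s - 1) (𝓝[≠] 1) (𝓝[≠] 0) := by
    rw [tendsto_nhdsWithin_iff]
    constructor
    · have : Tendsto (fun s : ℂ => s - 1) (𝓝 1) (𝓝 (1 - 1)) := by
        exact (continuous_id.sub continuous_const).continuousAt
      rw [sub_self] at this
      exact tendsto_nhdsWithin_of_tendsto_nhds this
    · filter_upwards [self_mem_nhdsWithin] with s hs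
      exact sub_ne_zero.2 hs
  refine (h4.comp h6).congr fun s => ?_
  simp only [Function.comp_apply]
  rw [add_sub_cancel]

/-- the geometric mean over `[0, T]` -/
noncomputable def gm (f : ℝ → ℝ) (T : ℝ) : ℝ := Real.exp ((∫ t in (0 : ℝ)..T, Real.log (f t)) / T)

theorem lg_sub_log_int {U : ℝ} (hU : 1 ≤ U) : ∫ t in Ioc 0 U, (lg t - Real.log t) = 1 := by
  have h1 : ∫ u in (0 : ℝ)..1, Real.log u = -1 := by simp
  have h3 : ∫ u in Ioc (0 : ℝ) 1, -Real.log u = 1 := by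
    rw [← intervalIntegral.integral_of_le zero_le_one, intervalIntegral.integral_neg, h1]
    norm_num
  have h4 : ∫ t in Ioc 0 U, (lg t - Real.log t) =
      ∫ t in Ioc 0 U, (Iic (1 : ℝ)).indicator (fun u => -Real.log u) t := by
    refine setIntegral_congr_fun measurableSet_Ioc fun u hu => ?_
    by_cases h : u ≤ 1
    · rw [indicator_of_mem (show u ∈ Iic (1 : ℝ) from h)]
      unfold lg
      rw [max_eq_right (Real.log_nonpos hu.1.le h)]
      ring
    · rw [indicator_of_notMem (show u ∉ Iic (1 : ℝ) from h)]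
      push Not at h
      unfold lg
      rw [max_eq_left (Real.log_nonneg h.le)]
      ring
  rw [h4, setIntegral_indicator measurableSet_Iic, Ioc_inter_Iic, min_eq_right hU, h3]

theorem gm_log (h : Pt S α P) (r : ℕ) {U : ℝ} (hU : 1 ≤ U) :
    Real.log (gm (fun t => Qn S g P (Real.exp t) / t ^ r) U) =
      (∫ t in Ioc 0 U, (SA qp (bt S α 0) t - r * lg t)) / U + r / U
      := by
  have D := lpQ h.par 0
  unfold gm
  rw [Real.log_exp, intervalIntegral.integral_of_le (by linarith)]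
  have h1 : ∫ t in Ioc 0 U, Real.log (Qn S g P (Real.exp t) / t ^ r) =
      ∫ t in Ioc 0 U, ((SA qp (bt S α 0) t - r * lg t) + r * (lg t - Real.log t)) := by
    refine setIntegral_congr_fun measurableSet_Ioc fun t ht => ?_
    have ht0 : 0 < t := ht.1
    rw [SA_eq h ht0.le, Real.log_div (Qn_pos h _).ne' (pow_pos ht0 r).ne', Real.log_pow]
    ring
  have i1 : IntegrableOn (SA qp (bt S α 0)) (Ioc 0 U) := by
    have h2 : IntegrableOn (fun t => SA qp (bt S α 0) t * Real.exp (-(2 * t))) (Ioc 0 U) :=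
      IntegrableOn.mono_set (SA_LInt D 2 (by norm_num)) Ioc_subset_Ioi_self
    refine Integrable.mono (Integrable.const_mul h2 (Real.exp (2 * U)))
      (SA_meas D).aestronglyMeasurable ?_
    refine (ae_restrict_iff' measurableSet_Ioc).mpr (Eventually.of_forall fun u hu => ?_)
    rw [norm_mul, norm_mul, Real.norm_of_nonneg (Real.exp_pos _).le,
      Real.norm_of_nonneg (Real.exp_pos _).le]
    have h2 : 1 ≤ Real.exp (2 * U) * Real.exp (-(2 * u)) := by
      rw [← Real.exp_add]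
      apply Real.one_le_exp
      linarith [hu.2]
    have h3 := norm_nonneg (SA qp (bt S α 0) u)
    nlinarith
  have i2 : IntegrableOn lg (Ioc 0 U) := int_Ioc lg_meas (fun w hw => lg_LInt hw) U
  have i3 : IntegrableOn Real.log (Ioc 0 U) :=
    int_Ioc Real.measurable_log (fun w hw => log_LInt hw) U
  have j1 : IntegrableOn (fun t => SA qp (bt S α 0) t - r * lg t) (Ioc 0 U) :=
    i1.sub (i2.const_mul _)
  have j2 : IntegrableOn (fun t => (r : ℝ) * (lg t - Real.log t)) (Ioc 0 U) :=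
    (i2.sub i3).const_mul _
  rw [h1, integral_add j1 j2, integral_const_mul, lg_sub_log_int hU]
  ring

theorem log_gm_zero (h : Pt S α P) {U : ℝ} (hU : 1 ≤ U) :
    Real.log (gm (fun t => Qn S g P (Real.exp t)) U) = (∫ t in Ioc 0 U, SA qp (bt S α 0) t) / U := by
  have h1 := gm_log h 0 hU
  simp only [pow_zero, div_one, Nat.cast_zero, zero_mul, sub_zero, zero_div, add_zero] at h1
  exact h1

theorem gm_tendsto (h : Pt S α P) (r : ℕ) {l : Filter ℕ} {T : ℕ → ℝ} (hT : Tendsto T l atTop)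
    {c : ℝ} (hc : 0 < c) :
    Tendsto (fun k => gm (fun t => Qn S g P (Real.exp t) / t ^ r) (T k)) l (𝓝 c) ↔
    Tendsto (fun k => (∫ t in Ioc 0 (T k), (SA qp (bt S α 0) t - r * lg t)) / T k) l
      (𝓝 (Real.log c)) := by
  have h0 : Tendsto (fun k => (r : ℝ) / T k) l (𝓝 0) := tendsto_const_nhds.div_atTop hT
  have e1 : ∀ᶠ k in l, Real.log (gm (fun t => Qn S g P (Real.exp t) / t ^ r) (T k)) =
      (∫ t in Ioc 0 (T k), (SA qp (bt S α 0) t - r * lg t)) / T k + r / T k := by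
    filter_upwards [hT.eventually_ge_atTop 1] with k hk
    exact gm_log h r hk
  constructor
  · intro h1
    have h2 := (Real.continuousAt_log hc.ne').tendsto.comp h1
    have h3 := h2.sub h0
    rw [sub_zero] at h3
    refine h3.congr' ?_
    filter_upwards [e1] with k hk
    simp only [Function.comp_apply]
    rw [hk]; ring
  · intro h1
    have h2 := h1.add h0
    rw [show Real.log c + 0 = Real.log c from add_zero _] at h2
    have h3 := (Real.continuous_exp.tendsto _).comp h2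
    rw [Real.exp_log hc] at h3
    refine h3.congr' ?_
    filter_upwards [e1] with k hk
    simp only [Function.comp_apply]
    rw [← hk, Real.exp_log]
    unfold gm
    exact Real.exp_pos _

theorem gm_tendsto' (h : Pt S α P) (r : ℕ) {c : ℝ} (hc : 0 < c) :
    Tendsto (fun T => gm (fun t => Qn S g P (Real.exp t) / t ^ r) T) atTop (𝓝 c) ↔
    Tendsto (fun T => (∫ t in Ioc 0 T, (SA qp (bt S α 0) t - r * lg t)) / T) atTop
      (𝓝 (Real.log c)) := by
  have h0 : Tendsto (fun T : ℝ => (r : ℝ) / T) atTop (𝓝 0) := tendsto_const_nhds.div_atTop tendsto_id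
  have e1 : ∀ᶠ T : ℝ in atTop, Real.log (gm (fun t => Qn S g P (Real.exp t) / t ^ r) T) =
      (∫ t in Ioc 0 T, (SA qp (bt S α 0) t - r * lg t)) / T + r / T := by
    filter_upwards [eventually_ge_atTop 1] with k hk
    exact gm_log h r hk
  constructor
  · intro h1
    have h2 := (Real.continuousAt_log hc.ne').tendsto.comp h1
    have h3 := h2.sub h0
    rw [sub_zero] at h3
    refine h3.congr' ?_
    filter_upwards [e1] with k hk
    simp only [Function.comp_apply]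
    rw [hk]; ring
  · intro h1
    have h2 := h1.add h0
    rw [show Real.log c + 0 = Real.log c from add_zero _] at h2
    have h3 := (Real.continuous_exp.tendsto _).comp h2
    rw [Real.exp_log hc] at h3
    refine h3.congr' ?_
    filter_upwards [e1] with k hk
    simp only [Function.comp_apply]
    rw [← hk, Real.exp_log]
    unfold gm
    exact Real.exp_pos _

/-- upper bound by a power of the logarithm -/
def Up (f : ℝ → ℝ) (ρ : ℝ) : Prop := ∃ C : ℝ, ∀ᶠ x : ℝ in atTop, f x ≤ C * Real.log x ^ ρ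

/-- lower bound by a power of the logarithm -/
def Lo (f : ℝ → ℝ) (ρ : ℝ) : Prop := ∃ c : ℝ, 0 < c ∧ ∀ᶠ x : ℝ in atTop, c * Real.log x ^ ρ ≤ f x

theorem up_log (h : Pt S α P) {ρ : ℝ} (hu : Up (Pn S g P) ρ) :
    ∃ C₀ : ℝ, ∀ᶠ T : ℝ in atTop, 1 * (Real.log (Pn S g P (Real.exp T)) - ρ * Real.log T) ≤ C₀ := by
  obtain ⟨C, hC⟩ := hu
  refine ⟨Real.log (max C 1), ?_⟩
  filter_upwards [Real.tendsto_exp_atTop.eventually hC, eventually_gt_atTop 0] with T h1 h2
  rw [Real.log_exp] at h1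
  have h3 : (0 : ℝ) < max C 1 := lt_of_lt_of_le one_pos (le_max_right _ _)
  have h4 : (0 : ℝ) < T ^ ρ := Real.rpow_pos_of_pos h2 ρ
  have h5 : Pn S g P (Real.exp T) ≤ max C 1 * T ^ ρ :=
    h1.trans (mul_le_mul_of_nonneg_right (le_max_left _ _) h4.le)
  have h6 := Real.log_le_log (Pn_pos h _) h5
  rw [Real.log_mul h3.ne' h4.ne', Real.log_rpow h2] at h6
  linarith

theorem lo_log (h : Pt S α P) {ρ : ℝ} (hu : Lo (Pn S g P) ρ) :
    ∃ C₀ : ℝ, ∀ᶠ T : ℝ in atTop,
      -1 * (Real.log (Pn S g P (Real.exp T)) - ρ * Real.log T) ≤ C₀ := by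
  obtain ⟨c, hc, hC⟩ := hu
  refine ⟨-Real.log c, ?_⟩
  filter_upwards [Real.tendsto_exp_atTop.eventually hC, eventually_gt_atTop 0] with T h1 h2
  rw [Real.log_exp] at h1
  have h4 : (0 : ℝ) < T ^ ρ := Real.rpow_pos_of_pos h2 ρ
  have h6 := Real.log_le_log (mul_pos hc h4) h1
  rw [Real.log_mul hc.ne' h4.ne', Real.log_rpow h2] at h6
  linarith

/-- the one-sided bound in the form used -/
theorem one_cases (h : Pt S α P) {ρ : ℝ}
    (ho : Up (Pn S g P) ρ ∨ (Lo (Pn S g P) ρ ∧ ∀ x : ℝ, 1 < x → x ≤ 3 / 2 → F x ≠ 0)) :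
    ∃ ε C₀ : ℝ, (ε = 1 ∨ ε = -1) ∧
      (∀ᶠ T : ℝ in atTop, ε * (Real.log (Pn S g P (Real.exp T)) - ρ * Real.log T) ≤ C₀) ∧
      (ε = -1 → ∀ x : ℝ, 1 < x → x ≤ 3 / 2 → F x ≠ 0) := by
  rcases ho with ho | ⟨ho, hz⟩
  · obtain ⟨C₀, h1⟩ := up_log h ho
    exact ⟨1, C₀, Or.inl rfl, h1, fun h2 => by norm_num at h2⟩
  · obtain ⟨C₀, h1⟩ := lo_log h ho
    exact ⟨-1, C₀, Or.inr rfl, h1, fun _ => hz⟩

/-- **The rank.** -/
theorem rank_main (h : Pt S α P) (hE : ∀ s : ℂ, 3 / 2 < s.re → F s = LFn S α s)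
    (ha : ∀ x ∈ Icc (1 : ℝ) (3 / 2), AnalyticAt ℂ F x) {ρ₀ : ℝ}
    (ho : Up (Pn S g P) ρ₀ ∨ (Lo (Pn S g P) ρ₀ ∧ ∀ x : ℝ, 1 < x → x ≤ 3 / 2 → F x ≠ 0)) :
    (∃ G : ℂ → ℂ, (∀ s : ℂ, 1 < s.re → DifferentiableAt ℂ G s ∧ G s ≠ 0) ∧
      ∀ s : ℂ, 3 / 2 < s.re → G s = LFn S α s) ∧
    ∃ (m : ℕ) (B : ℝ), 0 < B ∧ Tendsto (fun s => F s / (s - 1) ^ m) (𝓝[≠] 1) (𝓝 (B : ℂ)) ∧
      (∀ ρ : ℝ, Up (Pn S g P) ρ → (m : ℝ) ≤ ρ) ∧ (∀ ρ : ℝ, Lo (Pn S g P) ρ → ρ ≤ m) ∧
      Tendsto (fun T => Real.log (gm (fun t => Qn S g P (Real.exp t)) T) / Real.log T) atTop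
        (𝓝 (m : ℝ)) := by
  obtain ⟨ε, C₀, hε, he, hne⟩ := one_cases h ho
  obtain ⟨hi, m, B, hB, hlim, hl⟩ := log_main h hE ha hε he hne
  have hA := SA_meas (lpQ h.par 0)
  refine ⟨?_, m, B, hB, hlim, ?_, ?_, ?_⟩
  · obtain ⟨G, h1, h2⟩ := cont h hE (θ := 0) le_rfl hi (by norm_num)
    refine ⟨G, fun s hs => h1 s (by linarith), h2⟩
  · intro ρ hρ
    obtain ⟨C₁, h1⟩ := up_log h hρ
    obtain ⟨C, hC⟩ := one_log h (Or.inl rfl) h1
    have := (core hA hi hl (Or.inl rfl) hC).1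
    linarith
  · intro ρ hρ
    obtain ⟨C₁, h1⟩ := lo_log h hρ
    obtain ⟨C, hC⟩ := one_log h (Or.inr rfl) h1
    have := (core hA hi hl (Or.inr rfl) hC).1
    linarith
  · obtain ⟨C, hC⟩ := one_log h hε he
    refine ((core hA hi hl hε hC).2.1).congr' ?_
    filter_upwards [eventually_ge_atTop 1] with T hT
    rw [log_gm_zero h hT, div_div]

/-- **The leading coefficient.** -/
theorem lead_main (h : Pt S α P) (hE : ∀ s : ℂ, 3 / 2 < s.re → F s = LFn S α s)
    (ha : ∀ x ∈ Icc (1 : ℝ) (3 / 2), AnalyticAt ℂ F x) {r : ℕ}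
    (ho : Up (Pn S g P) r ∨ (Lo (Pn S g P) r ∧ ∀ x : ℝ, 1 < x → x ≤ 3 / 2 → F x ≠ 0))
    {B : ℝ} (hB : 0 < B) :
    List.TFAE [
      Tendsto (fun s => F s / (s - 1) ^ r) (𝓝[≠] 1) (𝓝 (B : ℂ)),
      ∃ T : ℕ → ℝ, Tendsto T atTop atTop ∧
        Tendsto (fun k => gm (fun t => Qn S g P (Real.exp t) / t ^ r) (T k)) atTop
          (𝓝 (Real.exp (r * Real.eulerMascheroniConstant) / B)),
      Tendsto (fun T => gm (fun t => Qn S g P (Real.exp t) / t ^ r) T) atTop
          (𝓝 (Real.exp (r * Real.eulerMascheroniConstant) / B))] := by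
  obtain ⟨ε, C₀, hε, he, hne⟩ := one_cases h ho
  obtain ⟨hi, m, B', hB', hlim, hl⟩ := log_main h hE ha hε he hne
  have hA := SA_meas (lpQ h.par 0)
  obtain ⟨C, hC⟩ := one_log h hε he
  obtain ⟨-, -, c3, c4⟩ := core hA hi hl hε hC
  set c : ℝ := Real.exp (r * Real.eulerMascheroniConstant) / B with hc
  have hc0 : 0 < c := div_pos (Real.exp_pos _) hB
  have hlc : Real.log c = r * Real.eulerMascheroniConstant - Real.log B := by
    rw [hc, Real.log_div (Real.exp_pos _).ne' hB.ne', Real.log_exp]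
  have hF1 : MeromorphicAt F 1 := by
    have := ha 1 ⟨le_rfl, by norm_num⟩
    rw [Complex.ofReal_one] at this
    exact this.meromorphicAt
  have hBc : (B : ℂ) ≠ 0 := by exact_mod_cast hB.ne'
  have hBc' : (B' : ℂ) ≠ 0 := by exact_mod_cast hB'.ne'
  have l1 := lead_iff hF1 (r : ℤ) hBc
  have l2 := lead_iff hF1 (m : ℤ) hBc'
  simp only [zpow_natCast] at l1 l2
  obtain ⟨o1, o2⟩ := l2.1 hlim
  tfae_have 1 → 3 := by
    intro h1
    obtain ⟨o3, o4⟩ := l1.1 h1
    rw [o1] at o3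
    have hm : (m : ℤ) = r := by exact_mod_cast o3
    have hm' : m = r := by exact_mod_cast hm
    have hBB : B' = B := by
      rw [o2] at o4
      exact_mod_cast o4
    rw [gm_tendsto' h r hc0, hlc, ← hBB]
    exact c3 (by rw [hm'])
  tfae_have 3 → 2 := fun h1 => ⟨fun k => (k : ℝ), tendsto_natCast_atTop_atTop,
    h1.comp tendsto_natCast_atTop_atTop⟩
  tfae_have 2 → 1 := by
    rintro ⟨T, hT, h1⟩
    rw [gm_tendsto h r hT hc0] at h1
    obtain ⟨h2, h3⟩ := c4 T hT _ h1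
    have hm : m = r := by exact_mod_cast h2
    rw [hlc] at h3
    have hBB : B' = B := by
      have : Real.log B' = Real.log B := by linarith
      exact Real.log_injOn_pos (Set.mem_Ioi.2 hB') (Set.mem_Ioi.2 hB) this
    rw [← hm, ← hBB]
    exact hlim
  tfae_finish

end

end Pool.Agent.E8helper75.OB
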