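import Pool.Agent.W263.BSD.Kara2
import Pool.Agent.H305R2.MertensD

/-! Karamata's theorem for bounded means, and the Laplace transform of `log⁺`. -/

set_option autoImplicit false

namespace Pool.Agent.E8helper75.OB

open MeasureTheory Filter Topology Set Polynomial
open Pool.Agent.W263.BSD

variable {b : ℝ → ℝ}

theorem kar0_step1 {c : ℝ}
    (hlim : Tendsto (fun w : ℝ => w * lap b w) (𝓝[>] 0) (𝓝 c)) (j : ℕ) :
    Tendsto (fun w : ℝ => w * lap b ((j + 1) * w)) (𝓝[>] 0) (𝓝 (c / (j + 1))) := by
  have hj : (0 : ℝ) < j + 1 := by positivity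
  have h1 : Tendsto (fun w : ℝ => ((j : ℝ) + 1) * w) (𝓝[>] 0) (𝓝[>] 0) := by
    rw [tendsto_nhdsWithin_iff]
    constructor
    · have : Tendsto (fun w : ℝ => ((j : ℝ) + 1) * w) (𝓝 0) (𝓝 (((j : ℝ) + 1) * 0)) :=
        tendsto_id.const_mul _
      rw [mul_zero] at this
      exact tendsto_nhdsWithin_of_tendsto_nhds this
    · filter_upwards [self_mem_nhdsWithin] with w hw
      have : (0 : ℝ) < w := hw
      exact mul_pos hj this
  have h2 := (hlim.comp h1).div_const ((j : ℝ) + 1)
  refine h2.congr fun w => ?_
  simp only [Function.comp_apply]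
  field_simp

theorem kar0_step2 (hi : ∀ w > 0, LInt b w) {c : ℝ}
    (hlim : Tendsto (fun w : ℝ => w * lap b w) (𝓝[>] 0) (𝓝 c)) (Q : ℝ[X]) :
    (∀ w > 0, IntegrableOn
      (fun u => b u * (Real.exp (-(w * u)) * Q.eval (Real.exp (-(w * u))))) (Ioi 0)) ∧
    Tendsto (fun w : ℝ => w * TT b Q w) (𝓝[>] 0) (𝓝 (c * II 0 fun x => Q.eval x)) := by
  induction Q using Polynomial.induction_on' with
  | add p q hp hq =>
    refine ⟨fun w hw => ?_, ?_⟩
    · refine ((hp.1 w hw).add (hq.1 w hw)).congr (Eventually.of_forall fun u => ?_)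
      simp only [Pi.add_apply, eval_add]
      ring
    · have h1 : ∀ᶠ w : ℝ in 𝓝[>] 0, w * TT b p w + w * TT b q w = w * TT b (p + q) w := by
        filter_upwards [self_mem_nhdsWithin] with w hw
        have : TT b (p + q) w = TT b p w + TT b q w := by
          unfold TT
          rw [← integral_add (hp.1 w hw) (hq.1 w hw)]
          congr 1; funext u
          rw [eval_add]; ring
        rw [this]; ring
      have h2 : II 0 (fun x => (p + q).eval x) = II 0 (fun x => p.eval x) +
          II 0 fun x => q.eval x := by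
        unfold II
        rw [← integral_add (II_poly_int 0 p) (II_poly_int 0 q)]
        congr 1; funext x
        simp only [eval_add]
        ring
      rw [h2, mul_add]
      exact (hp.2.add hq.2).congr' h1
  | monomial n a =>
    have e : ∀ w : ℝ, (fun u => b u * (Real.exp (-(w * u)) * (monomial n a).eval (Real.exp (-(w * u))))) =
        fun u => a * (b u * Real.exp (-((((n : ℝ) + 1) * w) * u))) := by
      intro w; funext u
      rw [eval_monomial, ← Real.exp_nat_mul]
      have : Real.exp (-((((n : ℝ) + 1) * w) * u)) = Real.exp (-(w * u)) *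
          Real.exp (n * -(w * u)) := by
        rw [← Real.exp_add]; congr 1; ring
      rw [this]; ring
    refine ⟨fun w hw => ?_, ?_⟩
    · rw [e w]
      exact Integrable.const_mul (hi _ (by positivity)) a
    · have h1 : ∀ w : ℝ, TT b (monomial n a) w = a * lap b (((n : ℝ) + 1) * w) := by
        intro w
        unfold TT lap
        rw [e w, integral_const_mul]
      simp only [h1]
      have h2 := (kar0_step1 hlim n).const_mul a
      have h3 : II 0 (fun x => (monomial n a).eval x) = a * (1 / ((n : ℝ) + 1)) := by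
        have h5 := pk_lap 0 (by positivity : (0 : ℝ) < (n : ℝ) + 1)
        rw [zero_add, pow_one] at h5
        rw [← h5, ← lap_const_mul]
        unfold II lap
        congr 1; funext v
        simp only []
        rw [eval_monomial, ← Real.exp_nat_mul]
        have : Real.exp (-((((n : ℝ) + 1)) * v)) = Real.exp (-v) * Real.exp (n * -v) := by
          rw [← Real.exp_add]; congr 1; ring
        rw [this]; ring
      rw [h3]
      have h4 : c * (a * (1 / ((n : ℝ) + 1))) = a * (c / (n + 1)) := by ring
      rw [h4]
      refine h2.congr fun w => ?_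
      ring

/-- **Karamata's theorem** for means. -/
theorem karamata0 (hb : Measurable b) (h0 : ∀ u, 0 < u → 0 ≤ b u) (hi : ∀ w > 0, LInt b w)
    {c : ℝ} (hlim : Tendsto (fun w : ℝ => w * lap b w) (𝓝[>] 0) (𝓝 c)) :
    Tendsto (fun U : ℝ => (∫ u in Ioc 0 U, b u) / U) atTop (𝓝 c) := by
  have hsmall : ∀ᶠ w : ℝ in 𝓝[>] 0, 0 < w := self_mem_nhdsWithin
  have hc : 0 ≤ c := by
    refine ge_of_tendsto hlim ?_
    filter_upwards [hsmall] with w hw
    exact mul_nonneg hw.le (lap_nonneg h0 w)
  have hD : Tendsto (fun w : ℝ => w * (∫ u in Ioc 0 (1 / w), b u)) (𝓝[>] 0) (𝓝 c) := by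
    rw [tendsto_order]
    constructor
    · intro l hl
      set η : ℝ := (c - l) / (2 * (c + 1)) with hη
      have hη0 : 0 < η := div_pos (by linarith) (by linarith)
      obtain ⟨Q, hQ1, hQ2, hQ3⟩ := poly_lower 0 hη0
      obtain ⟨hint, hT⟩ := kar0_step2 hi hlim Q
      have h1 : l < c * II 0 fun x => Q.eval x := by
        have h2 : c * (1 - η) ≤ c * II 0 fun x => Q.eval x := by
          refine mul_le_mul_of_nonneg_left ?_ hc
          simpa using hQ3
        have h3 : c * η ≤ (c - l) / 2 := by
          rw [hη, mul_div_assoc', div_le_div_iff₀ (by linarith) (by norm_num)]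
          nlinarith
        linarith
      filter_upwards [hT.eventually (lt_mem_nhds h1), hsmall] with w h4 h5
      exact lt_of_lt_of_le h4
        (mul_le_mul_of_nonneg_left (lower_ineq hb h0 hi hQ1 hQ2 h5 (hint w h5)) h5.le)
    · intro m hm
      set η : ℝ := (m - c) / (2 * (c + 1)) with hη
      have hη0 : 0 < η := div_pos (by linarith) (by linarith)
      obtain ⟨Q, hQ1, hQ2, hQ3⟩ := poly_upper 0 hη0
      obtain ⟨hint, hT⟩ := kar0_step2 hi hlim Q
      have h1 : (c * II 0 fun x => Q.eval x) < m := by
        have h2 : (c * II 0 fun x => Q.eval x) ≤ c * (1 + η) := by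
          refine mul_le_mul_of_nonneg_left ?_ hc
          simpa using hQ3
        have h3 : c * η ≤ (m - c) / 2 := by
          rw [hη, mul_div_assoc', div_le_div_iff₀ (by linarith) (by norm_num)]
          nlinarith
        linarith
      filter_upwards [hT.eventually (gt_mem_nhds h1), hsmall] with w h4 h5
      exact lt_of_le_of_lt
        (mul_le_mul_of_nonneg_left (upper_ineq hb h0 hi hQ1 hQ2 h5 (hint w h5)) h5.le) h4
  refine (hD.comp tendsto_inv_atTop_nhdsGT_zero).congr' ?_
  filter_upwards [eventually_gt_atTop 0] with U hU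
  simp only [Function.comp_apply]
  rw [one_div, inv_inv]
  field_simp

/-- `log⁺` -/
noncomputable def lg (t : ℝ) : ℝ := max (Real.log t) 0

theorem lg_meas : Measurable lg := by unfold lg; fun_prop

theorem lg_nonneg (t : ℝ) : 0 ≤ lg t := le_max_right _ _

theorem log_LInt {w : ℝ} (hw : 0 < w) : LInt Real.log w := by
  unfold LInt
  have h1 := (Pool.Agent.H305R2.integral_log_exp).1
  have h2 : IntegrableOn (fun u : ℝ => Real.exp (-(w * u)) * Real.log (w * u)) (Ioi 0) := by
    have := (integrableOn_Ioi_comp_mul_left_iff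
      (fun v : ℝ => Real.exp (-v) * Real.log v) 0 hw).2 (by rw [mul_zero]; exact h1)
    exact this
  have h3 : IntegrableOn (fun u : ℝ => Real.exp (-(w * u)) * Real.log w) (Ioi 0) := by
    have := (ex_LInt (c := 0) hw)
    unfold LInt ex at this
    refine (Integrable.mul_const this (Real.log w)).congr (Eventually.of_forall fun u => ?_)
    simp
  refine (h2.sub h3).congr_fun (fun u hu => ?_) measurableSet_Ioi
  have hu0 : (0 : ℝ) < u := hu
  simp only [Pi.sub_apply]
  rw [Real.log_mul hw.ne' hu0.ne']
  ring

theorem log_lap {w : ℝ} (hw : 0 < w) :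
    w * lap Real.log w = -Real.log w - Real.eulerMascheroniConstant := by
  have h1 := (Pool.Agent.H305R2.integral_log_exp)
  have h2 := integral_comp_mul_left_Ioi (fun v : ℝ => Real.exp (-v) * Real.log v) 0 hw
  rw [mul_zero, h1.2, smul_eq_mul] at h2
  have h3 : ∫ u in Ioi (0 : ℝ), Real.exp (-(w * u)) * Real.log (w * u) =
      lap Real.log w + Real.log w * (1 / w) := by
    have h4 : lap (ex 0) w = 1 / (w - 0) := ex_lap hw
    have h5 : lap Real.log w + Real.log w * lap (ex 0) w =
        ∫ u in Ioi (0 : ℝ), Real.exp (-(w * u)) * Real.log (w * u) := by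
      have h6 : LInt (fun u => Real.log w * ex 0 u) w := (ex_LInt (c := 0) hw).const_mul _
      rw [← lap_const_mul, ← lap_add (log_LInt hw) h6]
      unfold lap
      refine setIntegral_congr_fun measurableSet_Ioi fun u hu => ?_
      have hu0 : (0 : ℝ) < u := hu
      simp only [ex, zero_mul, Real.exp_zero, one_mul]
      rw [Real.log_mul hw.ne' hu0.ne']
      ring
    rw [← h5, h4, sub_zero]
  rw [h3] at h2
  have h6 : w * (lap Real.log w + Real.log w * (1 / w)) =
      w * (w⁻¹ * -Real.eulerMascheroniConstant) := by rw [h2]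
  have h7 : w * (w⁻¹ * -Real.eulerMascheroniConstant) = -Real.eulerMascheroniConstant := by
    field_simp
  have h8 : w * (lap Real.log w + Real.log w * (1 / w)) = w * lap Real.log w + Real.log w := by
    field_simp
  linarith

theorem lg_LInt {w : ℝ} (hw : 0 < w) : LInt lg w :=
  LInt.posPart Real.measurable_log (log_LInt hw)

/-- `log⁺ - log` has integral `1`. -/
theorem lg_sub_bound {w : ℝ} (hw : 0 < w) : 0 ≤ lap lg w - lap Real.log w ∧
    lap lg w - lap Real.log w ≤ 1 := by
  rw [← lap_sub (lg_LInt hw) (log_LInt hw)]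
  constructor
  · refine lap_nonneg (fun u _ => ?_) w
    have : Real.log u ≤ lg u := le_max_left _ _
    linarith
  · have h1 : ∫ u in (0 : ℝ)..1, Real.log u = -1 := by simp
    have h2 : IntegrableOn (fun u : ℝ => -Real.log u) (Ioc 0 1) := by
      have : IntervalIntegrable (fun u : ℝ => Real.log u) volume 0 1 := intervalIntegral.intervalIntegrable_log'
      exact ((intervalIntegrable_iff_integrableOn_Ioc_of_le zero_le_one).1 this).neg
    have h3 : ∫ u in Ioc (0 : ℝ) 1, -Real.log u = 1 := by
      rw [← intervalIntegral.integral_of_le zero_le_one, intervalIntegral.integral_neg, h1]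
      norm_num
    have h4 : ∫ u in Ioi (0 : ℝ), (Iic (1 : ℝ)).indicator (fun u => -Real.log u) u = 1 := by
      rw [setIntegral_indicator measurableSet_Iic, Ioi_inter_Iic, h3]
    rw [← h4]
    unfold lap
    refine setIntegral_mono_on ((lg_LInt hw).sub (log_LInt hw)) ?_ measurableSet_Ioi fun u hu => ?_
    · rw [IntegrableOn, integrable_indicator_iff measurableSet_Iic, IntegrableOn,
        Measure.restrict_restrict measurableSet_Iic, inter_comm, Ioi_inter_Iic]
      exact h2
    · have hu0 : (0 : ℝ) < u := hu
      have he : Real.exp (-(w * u)) ≤ 1 := by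
        rw [Real.exp_le_one_iff]
        have := mul_pos hw hu0
        linarith
      by_cases h : u ≤ 1
      · rw [indicator_of_mem (show u ∈ Iic (1 : ℝ) from h)]
        have hl : Real.log u ≤ 0 := Real.log_nonpos hu0.le h
        unfold lg
        simp only []
        rw [max_eq_right hl]
        have := Real.exp_pos (-(w * u))
        nlinarith
      · rw [indicator_of_notMem (show u ∉ Iic (1 : ℝ) from h)]
        push Not at h
        unfold lg
        simp only []
        rw [max_eq_left (Real.log_nonneg h.le)]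
        simp

theorem lg_lim : Tendsto (fun w : ℝ => w * lap lg w + Real.log w) (𝓝[>] 0)
    (𝓝 (-Real.eulerMascheroniConstant)) := by
  have h0 : Tendsto (fun w : ℝ => w) (𝓝[>] 0) (𝓝 0) := tendsto_nhdsWithin_of_tendsto_nhds tendsto_id
  have h1 : Tendsto (fun w : ℝ => w * (lap lg w - lap Real.log w)) (𝓝[>] 0) (𝓝 0) := by
    refine squeeze_zero' ?_ ?_ h0
    · filter_upwards [self_mem_nhdsWithin] with w hw
      exact mul_nonneg (le_of_lt hw) (lg_sub_bound hw).1
    · filter_upwards [self_mem_nhdsWithin] with w hw
      have hw0 : (0 : ℝ) < w := hw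
      have := (lg_sub_bound hw0).2
      nlinarith
  have h2 := h1.add_const (-Real.eulerMascheroniConstant)
  rw [zero_add] at h2
  refine h2.congr' ?_
  filter_upwards [self_mem_nhdsWithin] with w hw
  have := log_lap (show (0 : ℝ) < w from hw)
  linear_combination -this

end Pool.Agent.E8helper75.OB
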