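import Pool.Agent.E8helper75.OB.Sm
import Pool.Agent.E8helper25.LT.QCrit

/-! Euler products with one-sided bounds for the truncated products. -/

set_option autoImplicit false

namespace Pool.Agent.E8helper75.OB

open Complex MeasureTheory Filter Topology Set
open Pool.Agent.W263.BSD
open Pool.Agent.W189.ML (ser)
open Pool.Agent.E8helper25.LT

variable {ι : Type} {N : ℕ} {q : ι → ℝ} {β : ι → Fin N → ℂ} {Φ : ℂ → ℂ}

/-- the logarithm of the (corrected) product over `q_v ≤ e^T` -/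
noncomputable def SA (q : ι → ℝ) (β : ι → Fin N → ℂ) : ℝ → ℝ := sm (la q) (ce β)

theorem lp_ab (D : LP q β) : Ab (la q) (ce β) 1 := fun _ hs => D.summ hs

theorem la_pos (D : LP q β) (i : ι ⊕ ι) : 0 < la q i := by
  cases i with
  | inl v => exact D.logq_pos v
  | inr v =>
    have := D.logq_pos v
    simp only [la, Sum.elim_inr]
    linarith

theorem SA_meas (D : LP q β) : Measurable (SA q β) := sm_meas (lp_ab D)

theorem SA_LInt (D : LP q β) : ∀ w > 1, LInt (SA q β) w := fun w hw =>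
  sm_LInt (lp_ab D) hw (by linarith)

theorem rel [Countable ι] (D : LP q β) {w : ℂ} (hw : 1 < w.re) :
    w * lapC (SA q β) w = GG q β w - gg q β w := by
  unfold SA
  rw [sm_lapC (lp_ab D) (la_pos D) hw (by linarith), ← D.main_eq hw]
  ring

theorem gg_real [Countable ι] (D : LP q β) {w : ℝ} (hw : 1 < w) :
    gg q β w = (((GG q β w).re - w * lap (SA q β) w : ℝ) : ℂ) := by
  have h1 := rel D (w := (w : ℂ)) (by simpa using hw)
  rw [lapC_ofReal] at h1
  have h2 : gg q β w = GG q β w - (w : ℂ) * (lap (SA q β) w : ℂ) := by rw [h1]; ring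
  have h3 : GG q β w = ((GG q β w).re : ℂ) := by
    apply Complex.ext
    · simp
    · rw [D.GG_im (by linarith), Complex.ofReal_im]
  rw [h2]
  push_cast
  rw [← h3]

theorem phi_val [Countable ι] (D : LP q β) (hΦ : ∀ w : ℂ, 1 < w.re → Φ w = exp (gg q β w)) {w : ℝ}
    (hw : 1 < w) : Φ w = ((Real.exp ((GG q β w).re - w * lap (SA q β) w) : ℝ) : ℂ) := by
  rw [hΦ _ (by simpa using hw), gg_real D hw, Complex.ofReal_exp]

theorem phi_im [Countable ι] (D : LP q β) (hΦ : ∀ w : ℂ, 1 < w.re → Φ w = exp (gg q β w)) {θ : ℝ}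
    (ha : ∀ x : ℝ, θ < x → AnalyticAt ℂ Φ x) {x : ℝ} (hx : θ < x) : (Φ x).im = 0 := by
  have h1 : AnalyticOnNhd ℝ (fun x : ℝ => (Φ x).im) (Ioi θ) := fun y hy => (ha y hy).im_ofReal
  have h2 : AnalyticOnNhd ℝ (fun _ : ℝ => (0 : ℝ)) (Ioi θ) := fun y _ => analyticAt_const
  have h3 : (max θ 1 + 1) ∈ Ioi θ := by
    have := le_max_left θ 1
    show θ < _
    linarith
  have h4 : (fun x : ℝ => (Φ x).im) =ᶠ[𝓝 (max θ 1 + 1)] fun _ => 0 := by
    filter_upwards [Ioi_mem_nhds (show max θ 1 < max θ 1 + 1 by linarith)] with y hy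
    have hy1 : 1 < y := lt_of_le_of_lt (le_max_right _ _) hy
    rw [phi_val D hΦ hy1, Complex.ofReal_im]
  exact h1.eqOn_of_preconnected_of_eventuallyEq h2 isPreconnected_Ioi h3 h4 hx

theorem phi_pos [Countable ι] (D : LP q β) (hΦ : ∀ w : ℂ, 1 < w.re → Φ w = exp (gg q β w)) {a : ℝ}
    (ha : ∀ x : ℝ, a < x → AnalyticAt ℂ Φ x) (hne : ∀ x : ℝ, a < x → Φ x ≠ 0) {x : ℝ}
    (hx : a < x) : 0 < (Φ x).re := by
  by_contra hcon
  push Not at hcon
  set X : ℝ := max x 1 + 1 with hX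
  have hxX : x ≤ X := by have := le_max_left x 1; linarith
  have hX1 : 1 < X := by have := le_max_right x 1; linarith
  have h1 : 0 ≤ (Φ X).re := by
    rw [phi_val D hΦ hX1, Complex.ofReal_re]
    exact (Real.exp_pos _).le
  have hc : ContinuousOn (fun y : ℝ => (Φ y).re) (Icc x X) := fun y hy =>
    (ha y (lt_of_lt_of_le hx hy.1)).re_ofReal.continuousAt.continuousWithinAt
  obtain ⟨y, hy, hy0⟩ := intermediate_value_Icc hxX hc ⟨hcon, h1⟩
  have hay : a < y := lt_of_lt_of_le hx hy.1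
  refine hne y hay ?_
  apply Complex.ext
  · exact hy0
  · rw [phi_im D hΦ ha hay, Complex.zero_im]

theorem GGre_analytic (D : LP q β) {x : ℝ} (hx : 0 < x) :
    AnalyticAt ℝ (fun x : ℝ => (GG q β x).re) x := by
  have hopen : IsOpen {z : ℂ | 0 < z.re} := isOpen_lt continuous_const Complex.continuous_re
  have h1 : DifferentiableOn ℂ (GG q β) {z : ℂ | 0 < z.re} := fun z hz =>
    (D.GG_diff hz).differentiableWithinAt
  exact (h1.analyticAt (hopen.mem_nhds (show 0 < ((x : ℂ)).re by simpa using hx))).re_ofReal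

/-- the formula to the right of the last real zero -/
theorem step [Countable ι] (D : LP q β) (hΦ : ∀ w : ℂ, 1 < w.re → Φ w = exp (gg q β w)) {a : ℝ}
    (ha0 : 0 ≤ a) (ha : ∀ x : ℝ, a < x → AnalyticAt ℂ Φ x) (hne : ∀ x : ℝ, a < x → Φ x ≠ 0)
    {U : ℝ → ℝ} (hU : Measurable U) (hUi : ∀ w > a, LInt U w) {ε : ℝ} (hε : ε = 1 ∨ ε = -1)
    (hle : ∀ t, 0 < t → ε * SA q β t ≤ U t) :
    (∀ w > a, LInt (SA q β) w) ∧
      ∀ w > a, lap (SA q β) w = ((GG q β w).re - Real.log (Φ w).re) / w := by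
  refine landau_os (SA_meas D) (w1 := 1) (SA_LInt D) hU hUi hε hle
    (g := fun w => ((GG q β w).re - Real.log (Φ w).re) / w) (fun w hw => ?_) (fun w hw _ => ?_)
  · have hw0 : 0 < w := lt_of_le_of_lt ha0 hw
    exact ((GGre_analytic D hw0).sub ((ha w hw).re_ofReal.log (phi_pos D hΦ ha hne hw))).div
      analyticAt_id hw0.ne'
  · have h1 := phi_val D hΦ (show 1 < w from hw)
    rw [h1, Complex.ofReal_re, Real.log_exp]
    have : w ≠ 0 := by intro h; rw [h] at hw; linarith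
    field_simp
    ring

/-- **No zeros**: the half-plane of convergence. -/
theorem os_main [Countable ι] (D : LP q β) (hΦ : ∀ w : ℂ, 1 < w.re → Φ w = exp (gg q β w)) {θ : ℝ}
    (hθ : 0 ≤ θ) (ha : ∀ x : ℝ, θ < x → AnalyticAt ℂ Φ x)
    {U : ℝ → ℝ} (hU : Measurable U) (hUi : ∀ w > θ, LInt U w) {ε : ℝ} (hε : ε = 1 ∨ ε = -1)
    (hle : ∀ t, 0 < t → ε * SA q β t ≤ U t) (hne : ε = -1 → ∀ x : ℝ, θ < x → Φ x ≠ 0) :
    (∀ x : ℝ, θ < x → Φ x ≠ 0) ∧ (∀ w > θ, LInt (SA q β) w) ∧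
      ∀ w > θ, lap (SA q β) w = ((GG q β w).re - Real.log (Φ w).re) / w := by
  have key : ∀ x : ℝ, θ < x → Φ x ≠ 0 := by
    rcases hε with hε1 | hε1
    swap
    · exact hne hε1
    by_contra hcon
    push Not at hcon
    obtain ⟨z, hz1, hz2⟩ := hcon
    set Z : Set ℝ := {x : ℝ | θ < x ∧ Φ x = 0} with hZ
    have hZne : Z.Nonempty := ⟨z, hz1, hz2⟩
    have hbd : ∀ x ∈ Z, x ≤ 1 := by
      intro x hx
      by_contra h
      push Not at h
      refine (?_ : Φ x ≠ 0) hx.2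
      rw [hΦ x (by simpa using h)]
      exact Complex.exp_ne_zero _
    set x0 : ℝ := sSup Z with hx0
    have hB : BddAbove Z := ⟨1, hbd⟩
    have hzx : z ≤ x0 := le_csSup hB ⟨hz1, hz2⟩
    have hθx : θ < x0 := lt_of_lt_of_le hz1 hzx
    have hx00 : 0 < x0 := lt_of_le_of_lt hθ hθx
    have h0 : Φ x0 = 0 := by
      have hc : ContinuousAt (fun x : ℝ => Φ x) x0 :=
        ContinuousAt.comp (f := fun x : ℝ => (x : ℂ)) (g := Φ) (ha x0 hθx).continuousAt
          Complex.continuous_ofReal.continuousAt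
      by_contra h
      have h1 := hc.eventually_ne h
      obtain ⟨δ, hδ, hδ2⟩ := Metric.eventually_nhds_iff.1 h1
      obtain ⟨y, hy, hy2⟩ := exists_lt_of_lt_csSup hZne (show x0 - δ < sSup Z by rw [← hx0]; linarith)
      have hy3 : y ≤ x0 := le_csSup hB hy
      exact hδ2 (by rw [Real.dist_eq, abs_lt]; constructor <;> linarith) hy.2
    have hgt : ∀ x : ℝ, x0 < x → Φ x ≠ 0 := by
      intro x hx h
      have : x ≤ x0 := le_csSup hB ⟨hθx.trans hx, h⟩
      linarith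
    have ha' : ∀ x : ℝ, x0 < x → AnalyticAt ℂ Φ x := fun x hx => ha x (hθx.trans hx)
    obtain ⟨s1, s2⟩ := step D hΦ hx00.le ha' hgt hU (fun w hw => hUi w (hθx.trans hw))
      (Or.inl hε1) hle
    -- the bound
    have hbound : ∀ w > x0, ((GG q β w).re - Real.log (Φ w).re) / w ≤ lap U w := by
      intro w hw
      rw [← s2 w hw]
      refine lap_mono (s1 w hw) (hUi w (hθx.trans hw)) fun u hu => ?_
      have := hle u hu
      rwa [hε1, one_mul] at this
    -- continuity at `x0`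
    have hcU : Tendsto (fun w => lap U w) (𝓝[>] x0) (𝓝 (lap U x0)) :=
      (lap_analytic hU hUi hθx).continuousAt.tendsto.mono_left nhdsWithin_le_nhds
    have hcG : Tendsto (fun w : ℝ => (GG q β w).re) (𝓝[>] x0) (𝓝 (GG q β x0).re) :=
      (GGre_analytic D hx00).continuousAt.tendsto.mono_left nhdsWithin_le_nhds
    have hcP : Tendsto (fun w : ℝ => (Φ w).re) (𝓝[>] x0) (𝓝[>] 0) := by
      rw [tendsto_nhdsWithin_iff]
      constructor
      · have := (ha x0 hθx).re_ofReal.continuousAt.tendsto.mono_left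
          (nhdsWithin_le_nhds (s := Ioi x0))
        rwa [h0, Complex.zero_re] at this
      · filter_upwards [self_mem_nhdsWithin] with w hw
        exact phi_pos D hΦ ha' hgt hw
    have hlog : Tendsto (fun w : ℝ => -Real.log (Φ w).re) (𝓝[>] x0) atTop :=
      tendsto_neg_atBot_atTop.comp (Real.tendsto_log_nhdsGT_zero.comp hcP)
    have hw1 : Tendsto (fun w : ℝ => w) (𝓝[>] x0) (𝓝 x0) :=
      tendsto_nhdsWithin_of_tendsto_nhds tendsto_id
    have hR : Tendsto (fun w : ℝ => w * lap U w - (GG q β w).re) (𝓝[>] x0)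
        (𝓝 (x0 * lap U x0 - (GG q β x0).re)) := (hw1.mul hcU).sub hcG
    have h5 := hR.eventually (gt_mem_nhds (show x0 * lap U x0 - (GG q β x0).re <
      x0 * lap U x0 - (GG q β x0).re + 1 by linarith))
    have h6 := hlog.eventually_ge_atTop (x0 * lap U x0 - (GG q β x0).re + 1)
    obtain ⟨w, h7, h8, h9⟩ := (h5.and (h6.and self_mem_nhdsWithin)).exists
    have hw0 : x0 < w := h9
    have hwp : 0 < w := hx00.trans hw0
    have h10 := hbound w hw0
    rw [div_le_iff₀ hwp] at h10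
    nlinarith
  obtain ⟨s1, s2⟩ := step D hΦ hθ ha key hU hUi hε hle
  exact ⟨key, s1, s2⟩

/-- the continuation -/
theorem os_cont [Countable ι] (D : LP q β) (hΦ : ∀ w : ℂ, 1 < w.re → Φ w = exp (gg q β w)) {θ : ℝ}
    (hθ : 0 ≤ θ) (hi : ∀ w > θ, LInt (SA q β) w) :
    ∃ Ψ : ℂ → ℂ, (∀ w : ℂ, θ < w.re → DifferentiableAt ℂ Ψ w ∧ Ψ w ≠ 0) ∧
      ∀ w : ℂ, 1 < w.re → Ψ w = Φ w := by
  refine ⟨fun w => exp (GG q β w - w * lapC (SA q β) w), fun w hw => ⟨?_, Complex.exp_ne_zero _⟩,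
    fun w hw => ?_⟩
  · have h1 := D.GG_diff (lt_of_le_of_lt hθ hw)
    have h2 := lapC_differentiableAt (SA_meas D) hi hw
    exact (h1.sub (differentiableAt_id.mul h2)).cexp
  · simp only []
    rw [rel D hw, hΦ w hw]
    congr 1
    ring

/-- the behaviour at the centre -/
theorem at_zero [Countable ι] (D : LP q β) (ha : AnalyticAt ℂ Φ 0)
    (hpos : ∀ x : ℝ, 0 < x → 0 < (Φ x).re ∧ (Φ x).im = 0)
    (hform : ∀ w > 0, lap (SA q β) w = ((GG q β w).re - Real.log (Φ w).re) / w) :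
    ∃ (m : ℕ) (B : ℝ), 0 < B ∧ Tendsto (fun w => Φ w / w ^ m) (𝓝[≠] 0) (𝓝 (B : ℂ)) ∧
      Tendsto (fun w : ℝ => w * lap (SA q β) w + m * Real.log w) (𝓝[>] 0) (𝓝 (-Real.log B)) := by
  have hof : Tendsto (fun x : ℝ => (x : ℂ)) (𝓝[>] 0) (𝓝[≠] 0) := by
    rw [tendsto_nhdsWithin_iff]
    constructor
    · have : Tendsto (fun x : ℝ => (x : ℂ)) (𝓝 0) (𝓝 ((0 : ℝ) : ℂ)) :=
        Complex.continuous_ofReal.continuousAt
      rw [Complex.ofReal_zero] at this
      exact tendsto_nhdsWithin_of_tendsto_nhds this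
    · filter_upwards [self_mem_nhdsWithin] with x hx
      have hx0 : (0 : ℝ) < x := hx
      show (x : ℂ) ≠ 0
      exact_mod_cast hx0.ne'
  have hnt : ¬ ∀ᶠ w in 𝓝 (0 : ℂ), Φ w = 0 := by
    intro h
    have h1 := (hof.mono_right nhdsWithin_le_nhds).eventually h
    obtain ⟨x, hx1, hx2⟩ := (h1.and self_mem_nhdsWithin).exists
    have := (hpos x hx2).1
    rw [hx1] at this
    simp at this
  obtain ⟨m, g, hg, hg0, hm⟩ := ha.exists_eventuallyEq_pow_smul_nonzero_iff.2 hnt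
  simp only [sub_zero, smul_eq_mul] at hm
  have hlim : Tendsto (fun w => Φ w / w ^ m) (𝓝[≠] 0) (𝓝 (g 0)) := by
    refine (hg.continuousAt.tendsto.mono_left nhdsWithin_le_nhds).congr' ?_
    filter_upwards [hm.filter_mono nhdsWithin_le_nhds, self_mem_nhdsWithin] with w hw hw0
    have : w ^ m ≠ 0 := pow_ne_zero _ hw0
    rw [hw]
    field_simp
  -- reality
  have hval : ∀ᶠ x : ℝ in 𝓝[>] 0, 0 < x ∧ Φ x = ((x ^ m * (g x).re : ℝ) : ℂ) ∧ 0 < (g x).re ∧
      (g x).im = 0 := by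
    filter_upwards [(hof.mono_right nhdsWithin_le_nhds).eventually hm, self_mem_nhdsWithin] with x hx hx0
    have hx1 : (0 : ℝ) < x := hx0
    obtain ⟨h1, h2⟩ := hpos x hx1
    have hxm : (0 : ℝ) < x ^ m := pow_pos hx1 m
    have h3 : Φ x = ((x ^ m : ℝ) : ℂ) * g x := by rw [hx]; push_cast; rfl
    have h4 : (Φ x).re = x ^ m * (g x).re := by rw [h3, Complex.re_ofReal_mul]
    have h5 : (Φ x).im = x ^ m * (g x).im := by rw [h3, Complex.im_ofReal_mul]
    have h6 : 0 < (g x).re := by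
      rw [h4] at h1
      exact (mul_pos_iff_of_pos_left hxm).1 h1
    have h7 : (g x).im = 0 := by
      rw [h5] at h2
      exact (mul_eq_zero.1 h2).resolve_left hxm.ne'
    refine ⟨hx1, ?_, h6, h7⟩
    apply Complex.ext
    · rw [h4, Complex.ofReal_re]
    · rw [h2, Complex.ofReal_im]
  have hgx : Tendsto (fun x : ℝ => g x) (𝓝[>] 0) (𝓝 (g 0)) :=
    (hg.continuousAt.tendsto.mono_left nhdsWithin_le_nhds).comp hof
  have hre : Tendsto (fun x : ℝ => (g x).re) (𝓝[>] 0) (𝓝 (g 0).re) :=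
    (Complex.continuous_re.tendsto _).comp hgx
  have him : (g 0).im = 0 := by
    have h1 : Tendsto (fun x : ℝ => (g x).im) (𝓝[>] 0) (𝓝 (g 0).im) :=
      (Complex.continuous_im.tendsto _).comp hgx
    refine tendsto_nhds_unique h1 (tendsto_const_nhds.congr' ?_)
    filter_upwards [hval] with x hx
    exact hx.2.2.2.symm
  have hB0 : 0 ≤ (g 0).re := ge_of_tendsto hre (by filter_upwards [hval] with x hx; exact hx.2.2.1.le)
  have hgB : g 0 = ((g 0).re : ℂ) := by
    apply Complex.ext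
    · simp
    · rw [him, Complex.ofReal_im]
  have hB : 0 < (g 0).re := by
    refine lt_of_le_of_ne hB0 fun h => hg0 ?_
    rw [hgB, ← h, Complex.ofReal_zero]
  refine ⟨m, (g 0).re, hB, by rwa [← hgB], ?_⟩
  -- `GG → 0`
  have hG : Tendsto (fun w : ℝ => (GG q β w).re) (𝓝[>] 0) (𝓝 0) := by
    set C : ℝ := ∑' v, (N : ℝ) * (32 * q v ^ (-(5 / 4) : ℝ)) with hC
    have h1 : Tendsto (fun w : ℝ => C * ‖(w : ℂ)‖) (𝓝[>] 0) (𝓝 (C * 0)) := by
      refine Tendsto.const_mul _ ?_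
      have h2 : Tendsto (fun w : ℝ => ‖(w : ℂ)‖) (𝓝 0) (𝓝 ‖((0 : ℝ) : ℂ)‖) :=
        (Complex.continuous_ofReal.norm).continuousAt
      rw [Complex.ofReal_zero, norm_zero] at h2
      exact tendsto_nhdsWithin_of_tendsto_nhds h2
    rw [mul_zero] at h1
    refine squeeze_zero_norm' ?_ h1
    filter_upwards [self_mem_nhdsWithin] with w hw
    rw [Real.norm_eq_abs]
    exact (Complex.abs_re_le_norm _).trans (D.GG_lip (by simpa using hw))
  have hlg := (Real.continuousAt_log hB.ne').tendsto.comp hre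
  have h1 := hG.sub hlg
  rw [zero_sub] at h1
  refine h1.congr' ?_
  filter_upwards [hval] with x hx
  obtain ⟨h2, h3, h4, h5⟩ := hx
  have hxm : (0 : ℝ) < x ^ m := pow_pos h2 m
  simp only [Function.comp_apply]
  rw [hform x h2, h3, Complex.ofReal_re, Real.log_mul hxm.ne' h4.ne', Real.log_pow]
  field_simp
  ring

end Pool.Agent.E8helper75.OB
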