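import Pool.Agent.E8helper75.OB.Lp
import Pool.Agent.E8helper25.LT.AV
import Pool.Agent.H305R2.MertensM

/-! The truncated products of the numbers of points. -/

set_option autoImplicit false

namespace Pool.Agent.E8helper75.OB

open Complex MeasureTheory Filter Topology Set
open Pool.Agent.W263.BSD
open Pool.Agent.E8helper25.LT

theorem finite_pr (S : Finset Nat.Primes) (x : ℝ) :
    {p : Nat.Primes | ((p : ℕ) : ℝ) ≤ x ∧ p ∉ S}.Finite := by
  refine Set.Finite.of_injOn (f := fun p : Nat.Primes => (p : ℕ)) (t := Set.Iic ⌊x⌋₊) ?_ ?_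
    (Set.finite_Iic _)
  · rintro p ⟨h1, -⟩
    exact (Nat.le_floor_iff' p.2.ne_zero).2 h1
  · intro a _ b _ hab
    exact Subtype.ext hab

/-- the primes `p ≤ x` outside `S` -/
noncomputable def pr (S : Finset Nat.Primes) (x : ℝ) : Finset Nat.Primes := (finite_pr S x).toFinset

variable {g : ℕ} {S : Finset Nat.Primes} {α : Nat.Primes → Fin (2 * g) → ℂ}
  {P : Nat.Primes → ℕ → ℝ}

theorem mem_pr {x : ℝ} {p : Nat.Primes} : p ∈ pr S x ↔ ((p : ℕ) : ℝ) ≤ x ∧ p ∉ S := by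
  unfold pr
  rw [Set.Finite.mem_toFinset]
  rfl

theorem pr_mono {x y : ℝ} (h : x ≤ y) : pr S x ⊆ pr S y := fun p hp => by
  rw [mem_pr] at hp ⊢
  exact ⟨hp.1.trans h, hp.2⟩

/-- `∏_{p ≤ x, p ∉ S} N_p / p^g` -/
noncomputable def Pn (S : Finset Nat.Primes) (g : ℕ) (P : Nat.Primes → ℕ → ℝ) (x : ℝ) : ℝ :=
  ∏ p ∈ pr S x, P p 1 / ((p : ℕ) : ℝ) ^ g

/-- the product with the second order terms -/
noncomputable def Qn (S : Finset Nat.Primes) (g : ℕ) (P : Nat.Primes → ℕ → ℝ) (x : ℝ) : ℝ :=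
  open Classical in
  Pn S g P x * ∏ p ∈ pr S x \ pr S (√x), √((((p : ℕ) : ℝ) ^ 2) ^ g / P p 2)

theorem pt_pos (h : Pt S α P) {p : Nat.Primes} (hp : p ∉ S) {e : ℕ} (he : e ≠ 0) : 0 < P p e := by
  obtain ⟨-, h1, h2⟩ := h p hp
  obtain ⟨h3, h4⟩ := h2 e he
  refine lt_of_le_of_ne h3 fun h5 => ?_
  rw [← h5, Complex.ofReal_zero] at h4
  obtain ⟨j, -, hj⟩ := Finset.prod_eq_zero_iff.1 h4.symm
  have h6 : α p j ^ e = 1 := (sub_eq_zero.1 hj).symm
  have h7 : ‖α p j‖ ^ e = 1 := by rw [← norm_pow, h6, norm_one]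
  have h8 : 1 < ‖α p j‖ := by
    rw [h1 j, Real.lt_sqrt (by norm_num)]
    have : (1 : ℝ) < ((p : ℕ) : ℝ) := by exact_mod_cast p.2.one_lt
    simpa using this
  exact (one_lt_pow₀ h8 he).ne' h7

theorem log_P1 (h : Pt S α P) {p : Nat.Primes} (hp : p ∉ S) :
    Real.log (P p 1 / ((p : ℕ) : ℝ) ^ g) = l1 (bt S α 0) p := by
  rw [tm_l1 h 0 hp, pow_zero, mul_one, add_zero]

theorem log_P2 (h : Pt S α P) {p : Nat.Primes} (hp : p ∉ S) :
    Real.log (√((((p : ℕ) : ℝ) ^ 2) ^ g / P p 2)) = -(l2 (bt S α 0) p / 2) := by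
  rw [tm_l2 h 0 hp, pow_zero, mul_one, add_zero, Real.log_sqrt (by
    have := pt_pos h hp (e := 2) two_ne_zero
    positivity), show (((p : ℕ) : ℝ) ^ 2) ^ g / P p 2 = (P p 2 / (((p : ℕ) : ℝ) ^ 2) ^ g)⁻¹ from
    (inv_div _ _).symm, Real.log_inv]
  ring

theorem l_zero {p : Nat.Primes} (hp : p ∈ S) : l1 (bt S α 0) p = 0 ∧ l2 (bt S α 0) p = 0 := by
  have h0 : ∀ j : Fin (2 * g + 0), bt S α 0 p j = 0 := by
    intro j
    unfold bt
    refine Fin.addCases (fun i => ?_) (fun i => ?_) j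
    · rw [Fin.append_left]; unfold bA; rw [if_pos hp]
    · exact i.elim0
  constructor
  · unfold l1
    simp only [h0]
    simp
  · unfold l2
    simp only [h0]
    simp

theorem Pn_pos (h : Pt S α P) (x : ℝ) : 0 < Pn S g P x := by
  unfold Pn
  refine Finset.prod_pos fun p hp => ?_
  have h1 := pt_pos h (mem_pr.1 hp).2 (e := 1) one_ne_zero
  have h2 : (0 : ℝ) < ((p : ℕ) : ℝ) := by exact_mod_cast p.2.pos
  positivity

theorem log_Pn (h : Pt S α P) (x : ℝ) :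
    Real.log (Pn S g P x) = ∑ p ∈ pr S x, l1 (bt S α 0) p := by
  unfold Pn
  rw [Real.log_prod]
  · exact Finset.sum_congr rfl fun p hp => log_P1 h (mem_pr.1 hp).2
  · intro p hp
    have h1 := pt_pos h (mem_pr.1 hp).2 (e := 1) one_ne_zero
    have h2 : (0 : ℝ) < ((p : ℕ) : ℝ) := by exact_mod_cast p.2.pos
    positivity

theorem log_Qn (h : Pt S α P) (x : ℝ) :
    Real.log (Qn S g P x) = (∑ p ∈ pr S x, l1 (bt S α 0) p) -
      ∑ p ∈ (open Classical in pr S x \ pr S (√x)), l2 (bt S α 0) p / 2 := by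
  classical
  unfold Qn
  have hpos : ∀ p ∈ pr S x \ pr S (√x), √((((p : ℕ) : ℝ) ^ 2) ^ g / P p 2) ≠ 0 := by
    intro p hp
    have h1 := pt_pos h (mem_pr.1 (Finset.mem_sdiff.1 hp).1).2 (e := 2) two_ne_zero
    have h2 : (0 : ℝ) < ((p : ℕ) : ℝ) := by exact_mod_cast p.2.pos
    positivity
  rw [Real.log_mul (Pn_pos h x).ne' (Finset.prod_ne_zero_iff.2 hpos), log_Pn h, Real.log_prod hpos,
    sub_eq_add_neg, ← Finset.sum_neg_distrib]
  congr 1
  exact Finset.sum_congr rfl fun p hp => log_P2 h (mem_pr.1 (Finset.mem_sdiff.1 hp).1).2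

/-- sums over the primes up to `x` -/
theorem tsum_pr {f : Nat.Primes → ℝ} (hf : ∀ p ∈ S, f p = 0) (T c : ℝ) (hc : 0 < c) :
    (∑' p : Nat.Primes, if c * Real.log ((p : ℕ) : ℝ) ≤ T then f p else 0) =
      ∑ p ∈ pr S (Real.exp (T / c)), f p := by
  have hiff : ∀ p : Nat.Primes, c * Real.log ((p : ℕ) : ℝ) ≤ T ↔ ((p : ℕ) : ℝ) ≤ Real.exp (T / c) := by
    intro p
    have hp0 : (0 : ℝ) < ((p : ℕ) : ℝ) := by exact_mod_cast p.2.pos
    rw [← Real.log_le_iff_le_exp hp0, le_div_iff₀ hc, mul_comm]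
  rw [tsum_eq_sum (s := pr S (Real.exp (T / c))) (fun p hp => ?_)]
  · refine Finset.sum_congr rfl fun p hp => ?_
    rw [if_pos ((hiff p).2 (mem_pr.1 hp).1)]
  · by_cases h1 : p ∈ S
    · rw [hf p h1]; simp
    · rw [if_neg]
      intro h2
      exact hp (mem_pr.2 ⟨(hiff p).1 h2, h1⟩)

theorem SA_eq (h : Pt S α P) {T : ℝ} (hT : 0 ≤ T) :
    SA qp (bt S α 0) T = Real.log (Qn S g P (Real.exp T)) := by
  classical
  have D := lpQ h.par 0
  have h1 := term_summ (lp_ab D) T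
  have ha := h1.comp_injective Sum.inl_injective
  have hb := h1.comp_injective Sum.inr_injective
  have h2 : SA qp (bt S α 0) T = _ := (HasSum.sum ha.hasSum hb.hasSum).tsum_eq
  have e1 : (∑' p : Nat.Primes, ((fun i => if la qp i ≤ T then ce (bt S α 0) i else 0) ∘ Sum.inl) p) =
      ∑ p ∈ pr S (Real.exp T), (l1 (bt S α 0) p - l2 (bt S α 0) p / 2) := by
    have := tsum_pr (S := S) (f := fun p => l1 (bt S α 0) p - l2 (bt S α 0) p / 2) (fun p hp => by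
      rw [(l_zero hp).1, (l_zero hp).2]; simp) T 1 one_pos
    rw [div_one] at this
    rw [← this]
    refine tsum_congr fun p => ?_
    simp only [Function.comp, la, ce, Sum.elim_inl, one_mul]
    rfl
  have e2 : (∑' p : Nat.Primes, ((fun i => if la qp i ≤ T then ce (bt S α 0) i else 0) ∘ Sum.inr) p) =
      ∑ p ∈ pr S (√(Real.exp T)), (l2 (bt S α 0) p / 2) := by
    have := tsum_pr (S := S) (f := fun p => l2 (bt S α 0) p / 2) (fun p hp => by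
      rw [(l_zero hp).2]; simp) T 2 two_pos
    rw [Real.exp_half] at this
    rw [← this]
    refine tsum_congr fun p => ?_
    simp only [Function.comp, la, ce, Sum.elim_inr]
    rfl
  have hsub : pr S (√(Real.exp T)) ⊆ pr S (Real.exp T) := by
    refine pr_mono ?_
    rw [← Real.exp_half]
    exact Real.exp_le_exp.2 (by linarith)
  rw [h2, e1, e2, log_Qn h, Finset.sum_sub_distrib]
  have h3 := Finset.sum_sdiff hsub (f := fun p => l2 (bt S α 0) p / 2)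
  linarith

/-- `∑_{√x < p ≤ x} 1/p` is bounded -/
theorem mert : ∃ C : ℝ, ∀ᶠ x : ℝ in atTop,
    ∑ p ∈ (open Classical in pr S x \ pr S (√x)), (1 : ℝ) / ((p : ℕ) : ℝ) ≤ C := by
  classical
  obtain ⟨M, hM⟩ := Pool.Agent.H305R2.mertens_inv_tendsto
  set s : ℕ → ℝ := fun N => ∑ p ∈ (Finset.Icc 1 N).filter Nat.Prime, (1 : ℝ) / p with hs
  -- the sums as differences
  have h1 : ∀ x : ℝ, 1 ≤ x → ∑ p ∈ pr S x \ pr S (√x), (1 : ℝ) / ((p : ℕ) : ℝ) ≤
      s ⌊x⌋₊ - s ⌊√x⌋₊ := by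
    intro x hx
    have hsx : √x ≤ x := by
      rw [Real.sqrt_le_left (by linarith)]
      nlinarith
    have h2 : s ⌊x⌋₊ - s ⌊√x⌋₊ = ∑ p ∈ ((Finset.Icc 1 ⌊x⌋₊).filter Nat.Prime) \
        ((Finset.Icc 1 ⌊√x⌋₊).filter Nat.Prime), (1 : ℝ) / p := by
      have h3 : (Finset.Icc 1 ⌊√x⌋₊).filter Nat.Prime ⊆ (Finset.Icc 1 ⌊x⌋₊).filter Nat.Prime :=
        Finset.filter_subset_filter _ (Finset.Icc_subset_Icc_right (Nat.floor_mono hsx))
      have h4 := Finset.sum_sdiff h3 (f := fun p : ℕ => (1 : ℝ) / p)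
      simp only [hs]
      linarith
    rw [h2]
    have h3 : ∑ p ∈ pr S x \ pr S (√x), (1 : ℝ) / ((p : ℕ) : ℝ) =
        ∑ p ∈ (pr S x \ pr S (√x)).image (fun p : Nat.Primes => (p : ℕ)), (1 : ℝ) / p := by
      rw [Finset.sum_image]
      intro a _ b _ hab
      exact Subtype.ext hab
    rw [h3]
    refine Finset.sum_le_sum_of_subset_of_nonneg ?_ (fun p _ _ => by positivity)
    intro p hp
    obtain ⟨a, ha, rfl⟩ := Finset.mem_image.1 hp
    obtain ⟨h4, h5⟩ := Finset.mem_sdiff.1 ha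
    rw [mem_pr] at h4 h5
    rw [Finset.mem_sdiff, Finset.mem_filter, Finset.mem_filter, Finset.mem_Icc, Finset.mem_Icc]
    refine ⟨⟨⟨a.2.pos, Nat.le_floor h4.1⟩, a.2⟩, ?_⟩
    rintro ⟨⟨-, h6⟩, -⟩
    exact h5 ⟨(Nat.le_floor_iff' (by have := a.2.pos; omega)).1 h6, h4.2⟩
  have hsq : Tendsto (fun x : ℝ => √x) atTop atTop := Real.tendsto_sqrt_atTop
  have h2 : ∀ᶠ x : ℝ in atTop, s ⌊x⌋₊ - Real.log (Real.log ⌊x⌋₊) ≤ M + 1 :=
    (hM.comp (tendsto_nat_floor_atTop (α := ℝ))).eventually_le_const (by linarith)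
  have h3 : ∀ᶠ x : ℝ in atTop, M - 1 ≤ s ⌊√x⌋₊ - Real.log (Real.log ⌊√x⌋₊) :=
    (hM.comp ((tendsto_nat_floor_atTop (α := ℝ)).comp hsq)).eventually_const_le (by linarith)
  refine ⟨2 + Real.log 4, ?_⟩
  filter_upwards [h2, h3, eventually_ge_atTop 4] with x h4 h5 h6
  refine (h1 x (by linarith)).trans ?_
  have h7 : 2 ≤ √x := by
    rw [show (2 : ℝ) = √4 by rw [show (4 : ℝ) = 2 ^ 2 by norm_num, Real.sqrt_sq (by norm_num)]]
    exact Real.sqrt_le_sqrt h6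
  have h8 : (2 : ℝ) ≤ (⌊√x⌋₊ : ℝ) := by
    have : 2 ≤ ⌊√x⌋₊ := Nat.le_floor (by exact_mod_cast h7)
    exact_mod_cast this
  have h9 : (⌊x⌋₊ : ℝ) ≤ (⌊√x⌋₊ : ℝ) ^ 4 := by
    have e1 : (⌊x⌋₊ : ℝ) ≤ x := Nat.floor_le (by linarith)
    have e2 : √x < ⌊√x⌋₊ + 1 := Nat.lt_floor_add_one _
    have e3 : (⌊√x⌋₊ : ℝ) + 1 ≤ (⌊√x⌋₊ : ℝ) ^ 2 := by nlinarith
    have e4 : x = √x ^ 2 := (Real.sq_sqrt (by linarith)).symm
    have e5 : √x ≤ (⌊√x⌋₊ : ℝ) ^ 2 := by linarith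
    calc (⌊x⌋₊ : ℝ) ≤ √x ^ 2 := by rw [← e4]; exact e1
      _ ≤ ((⌊√x⌋₊ : ℝ) ^ 2) ^ 2 := pow_le_pow_left₀ (by positivity) e5 2
      _ = _ := by ring
  have h10 : (2 : ℝ) ≤ (⌊x⌋₊ : ℝ) := by
    have : 2 ≤ ⌊x⌋₊ := Nat.le_floor (by push_cast; linarith)
    exact_mod_cast this
  have h11 : 0 < Real.log (⌊√x⌋₊ : ℝ) := Real.log_pos (by linarith)
  have h12 : Real.log (Real.log (⌊x⌋₊ : ℝ)) ≤ Real.log 4 + Real.log (Real.log (⌊√x⌋₊ : ℝ)) := by
    rw [← Real.log_mul (by norm_num) h11.ne']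
    apply Real.log_le_log (Real.log_pos (by linarith))
    have : Real.log ((⌊√x⌋₊ : ℝ) ^ 4) = 4 * Real.log (⌊√x⌋₊ : ℝ) := by
      rw [Real.log_pow]; norm_num
    rw [← this]
    exact Real.log_le_log (by linarith) h9
  linarith

/-- the second order terms are bounded -/
theorem PQ (h : Pt S α P) : ∃ C : ℝ, ∀ᶠ T : ℝ in atTop,
    |SA qp (bt S α 0) T - Real.log (Pn S g P (Real.exp T))| ≤ C := by
  classical
  have D := lpQ h.par 0
  obtain ⟨C, hC⟩ := mert (S := S)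
  refine ⟨((2 * g + 0 : ℕ) : ℝ) * 2 * C, ?_⟩
  filter_upwards [Real.tendsto_exp_atTop.eventually hC, eventually_ge_atTop 0] with T h1 h2
  rw [SA_eq h h2, log_Qn h, log_Pn h]
  have h3 : ∀ p ∈ pr S (Real.exp T) \ pr S (√(Real.exp T)), |l2 (bt S α 0) p / 2| ≤
      (((2 * g + 0 : ℕ) : ℝ) * 2) * (1 / ((p : ℕ) : ℝ)) := by
    intro p _
    have e1 : ‖(l2 (bt S α 0) p : ℂ)‖ ≤ ∑ _j : Fin (2 * g + 0), 4 * (1 / ((p : ℕ) : ℝ)) := by
      rw [← D.l2_eq p]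
      refine norm_sum_le_of_le _ fun j _ => ?_
      have e2 : ‖bt S α 0 p j‖ ^ 2 ≤ 1 / ((p : ℕ) : ℝ) := by
        have e3 : ‖bt S α 0 p j‖ ^ 2 ≤ (qp p ^ (-(1 / 2) : ℝ)) ^ 2 :=
          pow_le_pow_left₀ (norm_nonneg _) (D.size p j) 2
        have e4 : (qp p ^ (-(1 / 2) : ℝ)) ^ 2 = 1 / ((p : ℕ) : ℝ) := by
          rw [← Real.rpow_natCast, ← Real.rpow_mul (D.q_pos p).le]
          norm_num
          rw [Real.rpow_neg_one]
          rfl
        rwa [e4] at e3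
      have e5 : ‖bt S α 0 p j ^ 2‖ ^ 2 ≤ 1 / 2 := by
        rw [norm_pow]
        have := D.sq_le p j
        nlinarith [sq_nonneg (‖bt S α 0 p j‖)]
      have e6 := log_one e5
      rw [norm_pow] at e6
      linarith
    rw [Complex.norm_real, Real.norm_eq_abs] at e1
    rw [Finset.sum_const, Finset.card_univ, Fintype.card_fin, nsmul_eq_mul] at e1
    rw [abs_div, abs_of_pos (show (0 : ℝ) < 2 by norm_num)]
    linarith
  have h4 : |∑ p ∈ pr S (Real.exp T) \ pr S (√(Real.exp T)), l2 (bt S α 0) p / 2| ≤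
      (((2 * g + 0 : ℕ) : ℝ) * 2) * C := by
    refine (Finset.abs_sum_le_sum_abs _ _).trans ((Finset.sum_le_sum h3).trans ?_)
    rw [← Finset.mul_sum]
    exact mul_le_mul_of_nonneg_left h1 (by positivity)
  have h5 : ∀ a b : ℝ, |a - b - a| = |b| := fun a b => by
    rw [show a - b - a = -b by ring, abs_neg]
  rw [h5]
  exact h4

end Pool.Agent.E8helper75.OB
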