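import Pool.Agent.E8helper75.OB.Core
import Pool.Agent.W189.ML.Star

/-! Summatory functions of general Dirichlet series and their Laplace transforms. -/

set_option autoImplicit false

namespace Pool.Agent.E8helper75.OB

open MeasureTheory Filter Topology Set
open Pool.Agent.W263.BSD
open Pool.Agent.W189.ML (ser)

variable {ι : Type} {lam c : ι → ℝ} {σ : ℝ}

/-- the summatory function -/
noncomputable def sm (lam c : ι → ℝ) (T : ℝ) : ℝ := ∑' i, if lam i ≤ T then c i else 0

/-- absolute convergence to the right of `σ` -/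
def Ab (lam c : ι → ℝ) (σ : ℝ) : Prop :=
  ∀ s : ℝ, σ < s → Summable fun i => |c i| * Real.exp (-(s * lam i))

theorem term_le {s : ℝ} (hs : 0 ≤ s) (T : ℝ) (i : ι) :
    |if lam i ≤ T then c i else 0| ≤ Real.exp (s * T) * (|c i| * Real.exp (-(s * lam i))) := by
  split_ifs with h
  · have h1 : 1 ≤ Real.exp (s * T) * Real.exp (-(s * lam i)) := by
      rw [← Real.exp_add]
      apply Real.one_le_exp
      nlinarith
    have h2 := abs_nonneg (c i)
    calc |c i| = |c i| * 1 := (mul_one _).symm
      _ ≤ |c i| * (Real.exp (s * T) * Real.exp (-(s * lam i))) := mul_le_mul_of_nonneg_left h1 h2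
      _ = _ := by ring
  · rw [abs_zero]
    positivity

theorem term_summ (h : Ab lam c σ) (T : ℝ) : Summable fun i => if lam i ≤ T then c i else 0 := by
  have hs : σ < max σ 0 + 1 := by have := le_max_left σ 0; linarith
  refine Summable.of_norm_bounded ((h _ hs).mul_left (Real.exp ((max σ 0 + 1) * T))) fun i => ?_
  rw [Real.norm_eq_abs]
  exact term_le (by have := le_max_right σ 0; linarith) T i

theorem sm_le (h : Ab lam c σ) {s : ℝ} (hs : σ < s) (hs0 : 0 ≤ s) (T : ℝ) :
    |sm lam c T| ≤ (∑' i, |c i| * Real.exp (-(s * lam i))) * Real.exp (s * T) := by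
  unfold sm
  rw [mul_comm, ← Real.norm_eq_abs, ← tsum_mul_left]
  exact tsum_of_norm_bounded ((h s hs).mul_left _).hasSum fun i => by
    rw [Real.norm_eq_abs]; exact term_le hs0 T i

theorem sm_mono (h : Ab lam c σ) (hc : ∀ i, 0 ≤ c i) : Monotone (sm lam c) := by
  intro T T' hT
  unfold sm
  refine Summable.tsum_le_tsum (fun i => ?_) (term_summ h T) (term_summ h T')
  by_cases h1 : lam i ≤ T
  · rw [if_pos h1, if_pos (h1.trans hT)]
  · rw [if_neg h1]
    split_ifs
    · exact hc i
    · exact le_rfl

theorem sm_meas (h : Ab lam c σ) : Measurable (sm lam c) := by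
  have hp : Ab lam (fun i => max (c i) 0) σ := fun s hs =>
    Summable.of_nonneg_of_le (fun i => by positivity) (fun i => by
      refine mul_le_mul_of_nonneg_right ?_ (Real.exp_pos _).le
      rw [abs_of_nonneg (le_max_right _ _)]
      exact max_le (le_abs_self _) (abs_nonneg _)) (h s hs)
  have hn : Ab lam (fun i => max (-c i) 0) σ := fun s hs =>
    Summable.of_nonneg_of_le (fun i => by positivity) (fun i => by
      refine mul_le_mul_of_nonneg_right ?_ (Real.exp_pos _).le
      rw [abs_of_nonneg (le_max_right _ _)]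
      exact max_le (neg_le_abs _) (abs_nonneg _)) (h s hs)
  have h1 : sm lam c = fun T => sm lam (fun i => max (c i) 0) T - sm lam (fun i => max (-c i) 0) T := by
    funext T
    unfold sm
    rw [← (term_summ hp T).tsum_sub (term_summ hn T)]
    refine tsum_congr fun i => ?_
    split_ifs
    · rcases le_total (c i) 0 with h | h
      · rw [max_eq_right h, max_eq_left (by linarith)]; ring
      · rw [max_eq_left h, max_eq_right (by linarith)]; ring
    · simp
  rw [h1]
  exact (sm_mono hp fun i => le_max_right _ _).measurable.sub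
    (sm_mono hn fun i => le_max_right _ _).measurable

theorem sm_LInt (h : Ab lam c σ) {w : ℝ} (hw : σ < w) (hw0 : 0 < w) : LInt (sm lam c) w := by
  set s : ℝ := (max σ 0 + w) / 2 with hs
  have hm : max σ 0 < w := max_lt hw hw0
  have hs1 : σ < s := by have := le_max_left σ 0; rw [hs]; linarith
  have hs0 : 0 ≤ s := by have := le_max_right σ 0; rw [hs]; linarith
  have hsw : s < w := by rw [hs]; linarith
  have h1 := (ex_LInt hsw).const_mul (∑' i, |c i| * Real.exp (-(s * lam i)))
  unfold LInt at *
  refine Integrable.mono' h1 ?_ (Eventually.of_forall fun u => ?_)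
  · exact ((sm_meas h).mul (by fun_prop)).aestronglyMeasurable
  · rw [norm_mul, Real.norm_of_nonneg (Real.exp_pos _).le]
    refine mul_le_mul_of_nonneg_right ?_ (Real.exp_pos _).le
    rw [Real.norm_eq_abs]
    exact sm_le h hs1 hs0 u

theorem exp_int {w : ℂ} (hw : 0 < w.re) (a : ℝ) :
    IntegrableOn (fun u : ℝ => Complex.exp (-(w * u))) (Ioi a) ∧
    ∫ u in Ioi a, Complex.exp (-(w * u)) = Complex.exp (-(w * a)) / w := by
  have h1 : (-w).re < 0 := by rw [Complex.neg_re]; linarith
  have h2 := integrableOn_exp_mul_complex_Ioi h1 a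
  have h3 := integral_exp_mul_complex_Ioi h1 a
  have h4 : (fun u : ℝ => Complex.exp (-(w * u))) = fun u : ℝ => Complex.exp (-w * u) := by
    funext u; congr 1; ring
  rw [h4]
  refine ⟨h2, ?_⟩
  rw [h3, neg_div_neg_eq]
  congr 2
  ring

theorem ind_int {w : ℂ} (hw : 0 < w.re) {l : ℝ} (hl : 0 < l) (a : ℝ) :
    IntegrableOn (fun u : ℝ => ((if l ≤ u then a else 0 : ℝ) : ℂ) * Complex.exp (-(w * u))) (Ioi 0) ∧
    ∫ u in Ioi (0 : ℝ), ((if l ≤ u then a else 0 : ℝ) : ℂ) * Complex.exp (-(w * u)) =
      a * (Complex.exp (-(w * l)) / w) := by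
  have h1 : (fun u : ℝ => ((if l ≤ u then a else 0 : ℝ) : ℂ) * Complex.exp (-(w * u))) =
      (Ici l).indicator fun u : ℝ => (a : ℂ) * Complex.exp (-(w * u)) := by
    funext u
    by_cases h : l ≤ u
    · rw [if_pos h, indicator_of_mem (show u ∈ Ici l from h)]
    · rw [if_neg h, indicator_of_notMem (show u ∉ Ici l from h)]
      simp
  have h2 : Ioi (0 : ℝ) ∩ Ici l = Ici l := by
    ext u
    simp only [mem_inter_iff, mem_Ioi, mem_Ici]
    constructor
    · exact fun h => h.2
    · exact fun h => ⟨by linarith, h⟩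
  obtain ⟨h3, h4⟩ := exp_int hw l
  have h5 : IntegrableOn (fun u : ℝ => (a : ℂ) * Complex.exp (-(w * u))) (Ici l) := by
    rw [integrableOn_Ici_iff_integrableOn_Ioi]
    exact h3.const_mul _
  rw [h1]
  constructor
  · rw [IntegrableOn, integrable_indicator_iff measurableSet_Ici, IntegrableOn,
      Measure.restrict_restrict measurableSet_Ici, inter_comm, h2]
    exact h5
  · rw [setIntegral_indicator measurableSet_Ici, h2, integral_Ici_eq_integral_Ioi,
      integral_const_mul, h4]

theorem sm_lapC [Countable ι] (h : Ab lam c σ) (hl : ∀ i, 0 < lam i) {w : ℂ} (hw : σ < w.re)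
    (hw0 : 0 < w.re) : w * lapC (sm lam c) w = ser lam c w := by
  have hwn : w ≠ 0 := fun h0 => by rw [h0] at hw0; simp at hw0
  set F : ι → ℝ → ℂ := fun i u => ((if lam i ≤ u then c i else 0 : ℝ) : ℂ) * Complex.exp (-(w * u))
    with hF
  have h1 : ∀ i, Integrable (F i) (volume.restrict (Ioi 0)) := fun i => (ind_int hw0 (hl i) _).1
  have h2 : ∀ i, ∫ u in Ioi (0 : ℝ), ‖F i u‖ = |c i| * Real.exp (-(w.re * lam i)) / w.re := by
    intro i
    have e1 := (ind_int (w := (w.re : ℂ)) (by simpa using hw0) (hl i) |c i|).2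
    have e2 : ∀ u : ℝ, ((if lam i ≤ u then |c i| else 0 : ℝ) : ℂ) * Complex.exp (-((w.re : ℂ) * u)) =
        ((‖F i u‖ : ℝ) : ℂ) := by
      intro u
      have e3 : ‖F i u‖ = (if lam i ≤ u then |c i| else 0) * Real.exp (-(w.re * u)) := by
        simp only [hF]
        rw [norm_mul, Complex.norm_exp, Complex.norm_real]
        congr 1
        · split_ifs <;> simp
        · simp
      rw [e3]
      push_cast
      rfl
    simp only [e2] at e1
    rw [integral_complex_ofReal] at e1
    have e4 : ((|c i| : ℝ) : ℂ) * (Complex.exp (-((w.re : ℂ) * lam i)) / (w.re : ℂ)) =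
        ((|c i| * Real.exp (-(w.re * lam i)) / w.re : ℝ) : ℂ) := by
      push_cast
      ring
    rw [e4] at e1
    exact_mod_cast e1
  have h3 : Summable fun i => ∫ u in Ioi (0 : ℝ), ‖F i u‖ := by
    simp only [h2]
    exact (h w.re hw).div_const _
  have h4 := (hasSum_integral_of_summable_integral_norm h1 h3).tsum_eq
  have h5 : ∀ u : ℝ, ∑' i, F i u = (sm lam c u : ℂ) * Complex.exp (-(w * u)) := by
    intro u
    simp only [hF]
    rw [tsum_mul_right]
    congr 1
    unfold sm
    rw [Complex.ofReal_tsum]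
  simp only [h5] at h4
  have h6 : lapC (sm lam c) w = ∑' i, ∫ u in Ioi (0 : ℝ), F i u := h4.symm
  rw [h6, ← tsum_mul_left]
  unfold ser
  refine tsum_congr fun i => ?_
  simp only [hF]
  rw [(ind_int hw0 (hl i) (c i)).2]
  field_simp

end Pool.Agent.E8helper75.OB
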